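import Pool.Agent.R586.TW.Kelly

set_option autoImplicit false
set_option linter.unusedSectionVars false

namespace Pool.Agent.R586.TW

open Finset Classical

variable {Q : Type} [Fintype Q] {Γ : Subgroup (Equiv.Perm Q)} {P : Finset Q}
  {V : Type} [Fintype V] {p : ℕ} {w w' : Q → ℕ} {q q' : V → Q} {T : Finset V}

theorem fib_sum {ι : Type} [Fintype ι] (f : ι → (Q → ℕ)) (S : Finset (Q → ℕ))
    (hS : ∀ i, f i ∈ S) (g : (Q → ℕ) → ℤ) :
    ∑ y ∈ S, ((univ.filter (fun i => f i = y)).card : ℤ) * g y = ∑ i, g (f i) := by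
  rw [← sum_fiberwise_of_maps_to (s := univ) (t := S) (g := f) (fun i _ => hS i)]
  apply sum_congr rfl
  intro y _
  rw [← nsmul_eq_mul, ← sum_const]
  apply sum_congr rfl
  intro i hi
  rw [(mem_filter.mp hi).2]

/-- the footprint bound -/
theorem Dk.foot_bound (h : Dk Γ P p w w' q q' T)
    (hne : ¬ ∃ γ : Γ, ∀ a, w' ((γ : Equiv.Perm Q) a) = w a)
    (he : 1 ≤ ∑ a ∈ P, (w a - p)) (k : ℕ) (hk1 : 1 ≤ k) (hk : ∀ a ∈ P, w a < p + k)
    (hk' : ∀ a ∈ P, w' a < p + k) :
    k ^ (∑ a ∈ P, (w a - p)) ≤ (2 * Fintype.card Γ) ^ (k - 1) := by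
  set f : Γ → (Q → ℕ) := fun γ a => w ((γ : Equiv.Perm Q) a) with hf
  set f' : Γ → (Q → ℕ) := fun γ a => w' ((γ : Equiv.Perm Q) a) with hf'
  set S := univ.image f ∪ univ.image f' with hS
  have hSf : ∀ γ, f γ ∈ S := fun γ => mem_union_left _ (mem_image_of_mem _ (mem_univ _))
  have hSf' : ∀ γ, f' γ ∈ S := fun γ => mem_union_right _ (mem_image_of_mem _ (mem_univ _))
  have hcard : S.card ≤ 2 * Fintype.card Γ := by
    calc S.card ≤ (univ.image f).card + (univ.image f').card := card_union_le _ _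
      _ ≤ Fintype.card Γ + Fintype.card Γ := by
          apply Nat.add_le_add
          · exact card_image_le.trans (by rw [card_univ])
          · exact card_image_le.trans (by rw [card_univ])
      _ = _ := by ring
  have hdis : ∀ γ β : Γ, f γ ≠ f' β := by
    intro γ β hh
    apply hne
    refine ⟨β * γ⁻¹, fun a => ?_⟩
    have := congrFun hh ((γ : Equiv.Perm Q)⁻¹ a)
    simp only [hf, hf'] at this
    rw [Subgroup.coe_mul, Subgroup.coe_inv, Equiv.Perm.mul_apply, ← this]
    simp
  set μ : (Q → ℕ) → ℤ := fun y => ((univ.filter (fun γ => f γ = y)).card : ℤ) -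
    ((univ.filter (fun γ => f' γ = y)).card : ℤ) with hμ
  have hμ0 : ∀ y ∈ S, μ y ≠ 0 := by
    intro y hy
    rcases mem_union.mp hy with h1 | h1
    · obtain ⟨γ, _, rfl⟩ := mem_image.mp h1
      have h2 : univ.filter (fun β => f' β = f γ) = ∅ := by
        rw [filter_eq_empty_iff]
        intro β _ hh
        exact hdis γ β hh.symm
      have h3 : 0 < (univ.filter (fun β => f β = f γ)).card :=
        card_pos.mpr ⟨γ, mem_filter.mpr ⟨mem_univ _, rfl⟩⟩
      simp only [hμ, h2, card_empty]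
      omega
    · obtain ⟨γ, _, rfl⟩ := mem_image.mp h1
      have h2 : univ.filter (fun β => f β = f' γ) = ∅ := by
        rw [filter_eq_empty_iff]
        intro β _ hh
        exact hdis β γ hh
      have h3 : 0 < (univ.filter (fun β => f' β = f' γ)).card :=
        card_pos.mpr ⟨γ, mem_filter.mpr ⟨mem_univ _, rfl⟩⟩
      simp only [hμ, h2, card_empty]
      omega
  have hval : ∀ a, (S.image (fun y => y a)).card ≤ k := by
    intro a
    by_cases ha : a ∈ P
    · have h1 : S.image (fun y => y a) ⊆ Finset.Ico p (p + k) := by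
        intro t ht
        obtain ⟨y, hy, rfl⟩ := mem_image.mp ht
        rw [mem_Ico]
        rcases mem_union.mp hy with h1 | h1
        · obtain ⟨γ, _, rfl⟩ := mem_image.mp h1
          have h2 := (h.hP γ γ.2 a).mpr ha
          exact ⟨h.hp _ h2, hk _ h2⟩
        · obtain ⟨γ, _, rfl⟩ := mem_image.mp h1
          have h2 := (h.hP γ γ.2 a).mpr ha
          exact ⟨h.hp' _ h2, hk' _ h2⟩
      calc _ ≤ _ := card_le_card h1
        _ = k := by rw [Nat.card_Ico]; omega
    · have h1 : S.image (fun y => y a) ⊆ {w a} := by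
        intro t ht
        obtain ⟨y, hy, rfl⟩ := mem_image.mp ht
        rw [mem_singleton]
        rcases mem_union.mp hy with h1 | h1
        · obtain ⟨γ, _, rfl⟩ := mem_image.mp h1
          exact h.hout γ γ.2 a ha
        · obtain ⟨γ, _, rfl⟩ := mem_image.mp h1
          have h2 : (γ : Equiv.Perm Q) a ∉ P := fun hh => ha ((h.hP γ γ.2 a).mp hh)
          show w' ((γ : Equiv.Perm Q) a) = w a
          rw [h.hww _ h2]
          exact h.hout γ γ.2 a ha
      calc _ ≤ _ := card_le_card h1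
        _ = 1 := card_singleton _
        _ ≤ k := hk1
  have horth : ∀ l : List (Q × ℕ), l.length < ∑ a ∈ P, (w a - p) →
      ∑ y ∈ S, μ y * lp l y = 0 := by
    intro l hl
    have h1 := h.lin l hl
    have h2 := fib_sum f S hSf (fun y => lp l y)
    have h3 := fib_sum f' S hSf' (fun y => lp l y)
    have h4 : ∑ y ∈ S, μ y * lp l y =
        ∑ y ∈ S, ((univ.filter (fun i => f i = y)).card : ℤ) * lp l y -
        ∑ y ∈ S, ((univ.filter (fun i => f' i = y)).card : ℤ) * lp l y := by
      rw [← sum_sub_distrib]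
      apply sum_congr rfl
      intro y _
      simp only [hμ]
      ring
    rw [h4, h2, h3]
    exact sub_eq_zero.mpr h1
  have hmain := foot k S.card S μ _ rfl ⟨_, hSf 1⟩ he hμ0 hval horth
  exact hmain.trans (Nat.pow_le_pow_left hcard _)

/-- the case of two values -/
theorem Dk.lov (h : Dk Γ P p w w' q q' T)
    (hk : ∀ a ∈ P, w a ≤ p + 1) (hk' : ∀ a ∈ P, w' a ≤ p + 1)
    (h2 : P.card < 2 * (P.filter (fun a => w a = p + 1)).card) :
    ∃ γ : Γ, ∀ a, w' ((γ : Equiv.Perm Q) a) = w a := by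
  set A := P.filter (fun a => w a = p + 1) with hA
  set A' := P.filter (fun a => w' a = p + 1) with hA'
  have hAP : A ⊆ P := filter_subset _ _
  have hAP' : A' ⊆ P := filter_subset _ _
  have hcnt : ∀ u : Q → ℕ, (∀ a ∈ P, p ≤ u a) → (∀ a ∈ P, u a ≤ p + 1) →
      ∑ a ∈ P, u a = P.card * p + (P.filter (fun a => u a = p + 1)).card := by
    intro u hu1 hu2
    rw [card_filter, ← smul_eq_mul, ← sum_const, ← sum_add_distrib]
    apply sum_congr rfl
    intro a ha
    have e1 := hu1 a ha
    have e2 := hu2 a ha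
    split_ifs with e3 <;> omega
  have hc1 := hcnt w h.hp hk
  have hc2 := hcnt w' h.hp' hk'
  have hAA : A.card = A'.card := by
    have := h.hs
    rw [hc1, hc2] at this
    exact Nat.add_left_cancel this
  have he : ∑ a ∈ P, (w a - p) = A.card := by
    rw [hA, card_filter]
    apply sum_congr rfl
    intro a ha
    have e1 := h.hp a ha
    have e2 := hk a ha
    split_ifs with e3 <;> omega
  set l : List (Q × ℕ) := (P \ A).toList.map (fun a => (a, p + 1)) with hl
  have hlen : l.length = P.card - A.card := by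
    rw [hl, List.length_map, Finset.length_toList, card_sdiff_of_subset hAP]
  have hval : ∀ u : Q → ℕ, (∀ a ∈ P, p ≤ u a) → (∀ a ∈ P, u a ≤ p + 1) → ∀ γ : Γ,
      lp l (fun a => u ((γ : Equiv.Perm Q) a)) =
        (if ∀ a ∈ P \ A, u ((γ : Equiv.Perm Q) a) ≠ p + 1 then 1 else 0) * (-1) ^ l.length := by
    intro u hu1 hu2 γ
    split_ifs with hc
    · rw [one_mul]
      unfold lp
      rw [List.prod_eq_pow_card _ (-1 : ℤ)]
      · rw [List.length_map]
      · intro x hx
        rw [List.mem_map] at hx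
        obtain ⟨y, hy, rfl⟩ := hx
        rw [hl, List.mem_map] at hy
        obtain ⟨a, ha, rfl⟩ := hy
        have ha' := Finset.mem_toList.mp ha
        have e0 := (h.hP γ γ.2 a).mpr (mem_sdiff.mp ha').1
        have e1 := hu1 _ e0
        have e2 := hu2 _ e0
        have e3 := hc a ha'
        have e4 : u ((γ : Equiv.Perm Q) a) = p := by omega
        simp only [e4]
        push_cast
        ring
    · push Not at hc
      obtain ⟨a, ha, hh⟩ := hc
      rw [zero_mul, lp_eq_zero]
      exact ⟨(a, p + 1), List.mem_map.mpr ⟨a, Finset.mem_toList.mpr ha, rfl⟩, hh⟩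
  have h3 := h.lin l (by rw [he, hlen]; omega)
  simp_rw [hval w h.hp hk, hval w' h.hp' hk'] at h3
  rw [← sum_mul, ← sum_mul] at h3
  have h4 := mul_right_cancel₀ (pow_ne_zero _ (by norm_num : (-1 : ℤ) ≠ 0)) h3
  have h5 : (0 : ℤ) < ∑ γ : Γ,
      (if ∀ a ∈ P \ A, w ((γ : Equiv.Perm Q) a) ≠ p + 1 then (1 : ℤ) else 0) := by
    apply sum_pos'
    · intro γ _
      split_ifs <;> norm_num
    · refine ⟨1, mem_univ _, ?_⟩
      rw [if_pos]
      · norm_num
      · intro a ha hh
        rw [mem_sdiff] at ha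
        exact ha.2 (mem_filter.mpr ⟨ha.1, by simpa using hh⟩)
  rw [h4] at h5
  obtain ⟨γ, _, hγ⟩ := exists_ne_zero_of_sum_ne_zero h5.ne'
  have hγ' : ∀ a ∈ P \ A, w' ((γ : Equiv.Perm Q) a) ≠ p + 1 := by
    by_contra hcon
    rw [if_neg hcon] at hγ
    exact hγ rfl
  refine ⟨γ, ?_⟩
  set g : Equiv.Perm Q := (γ : Equiv.Perm Q) with hg
  have hgP : ∀ a, g a ∈ P ↔ a ∈ P := h.hP γ γ.2
  have hsub : (P \ A).image g ⊆ P \ A' := by
    intro b hb
    obtain ⟨a, ha, rfl⟩ := mem_image.mp hb
    rw [mem_sdiff]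
    exact ⟨(hgP a).mpr (mem_sdiff.mp ha).1, fun hh => hγ' a ha (mem_filter.mp hh).2⟩
  have heq : (P \ A).image g = P \ A' := by
    apply eq_of_subset_of_card_le hsub
    rw [card_image_of_injective _ g.injective, card_sdiff_of_subset hAP,
      card_sdiff_of_subset hAP', hAA]
  intro a
  by_cases haP : a ∈ P
  · by_cases haA : a ∈ A
    · have h6 : g a ∈ A' := by
        by_contra hcon
        have h7 : g a ∈ P \ A' := mem_sdiff.mpr ⟨(hgP a).mpr haP, hcon⟩
        rw [← heq] at h7
        obtain ⟨b, hb, hba⟩ := mem_image.mp h7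
        rw [g.injective hba] at hb
        exact (mem_sdiff.mp hb).2 haA
      rw [(mem_filter.mp h6).2, (mem_filter.mp haA).2]
    · have e1 := hγ' a (mem_sdiff.mpr ⟨haP, haA⟩)
      have e2 := h.hp' _ ((hgP a).mpr haP)
      have e3 := hk' _ ((hgP a).mpr haP)
      have e4 := h.hp a haP
      have e5 := hk a haP
      have e6 : w a ≠ p + 1 := fun hh => haA (mem_filter.mpr ⟨haP, hh⟩)
      have e7 : w' (g a) ≠ p + 1 := e1
      omega
  · rw [h.hww _ (fun hh => haP ((hgP a).mp hh))]
    exact h.hout γ γ.2 a haP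

end Pool.Agent.R586.TW
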