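import Pool.Agent.R586.TW.Main

set_option autoImplicit false
set_option linter.unusedSectionVars false

/-!
The final forms.
-/

namespace Pool.Agent.R586.TW

open Finset Classical
open Pool.Agent.H234RC (Hypo NonIso Reconstructible exists_hypo)

variable {V : Type} [Fintype V]

theorem compl_hypo {G H : SimpleGraph V} {π : V → Equiv.Perm V} (hH : Hypo G H π) :
    Hypo Gᶜ Hᶜ π := by
  refine ⟨hH.fix, fun v x y hx hy => ?_⟩
  rw [SimpleGraph.compl_adj, SimpleGraph.compl_adj, hH.adj v x y hx hy, (π v).injective.ne_iff]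

theorem compl_nonIso {G H : SimpleGraph V} (hN : NonIso G H) : NonIso Gᶜ Hᶜ := by
  rintro ⟨σ, hσ⟩
  apply hN
  refine ⟨σ, fun x y => ?_⟩
  have := hσ x y
  rw [SimpleGraph.compl_adj, SimpleGraph.compl_adj, σ.injective.ne_iff] at this
  by_cases hxy : x = y
  · rw [hxy]
    exact ⟨fun h => absurd h H.irrefl, fun h => absurd h G.irrefl⟩
  · constructor
    · intro h
      by_contra h2
      exact (this.mpr ⟨hxy, h2⟩).2 h
    · intro h
      by_contra h2
      exact (this.mp ⟨hxy, h2⟩).2 h

theorem rec_of (G : SimpleGraph V) (P : Prop) (h : ∀ (H : SimpleGraph V) (π : V → Equiv.Perm V),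
    Hypo G H π → NonIso G H → ¬ P) (hP : P) : Reconstructible G ∧ Reconstructible Gᶜ := by
  constructor
  · by_contra hcon
    obtain ⟨H, π, hH, hN⟩ := exists_hypo G hcon
    exact h H π hH hN hP
  · by_contra hcon
    obtain ⟨H, π, hH, hN⟩ := exists_hypo Gᶜ hcon
    have hH' := compl_hypo hH
    have hN' := compl_nonIso hN
    rw [compl_compl] at hH' hN'
    exact h _ π hH' hN' hP

/-- the number of the vertices with a given neighbourhood -/
noncomputable def mult (G : SimpleGraph V) (N : Finset V) : ℕ :=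
  (univ.filter (fun v => nbh G v = N)).card

theorem mult_eq (G : SimpleGraph V) (a : Qt G) : mult G a.1 = wt G a := by
  unfold mult wt
  congr 1
  ext x
  rw [mem_filter, mem_filter]
  constructor
  · rintro ⟨_, h⟩
    exact ⟨mem_univ _, Subtype.ext h⟩
  · rintro ⟨_, h⟩
    exact ⟨mem_univ _, congrArg Subtype.val h⟩

/-- the set of the neighbourhoods -/
noncomputable def NB (G : SimpleGraph V) : Finset (Finset V) := univ.image (nbh G)

theorem sum_NB (G : SimpleGraph V) (F : Finset V → ℕ) : ∑ a : Qt G, F a.1 = ∑ N ∈ NB G, F N := by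
  apply sum_bij (fun (a : Qt G) _ => a.1)
  · rintro ⟨N, v, rfl⟩ _
    exact mem_image_of_mem _ (mem_univ v)
  · intro a _ b _ h
    exact Subtype.ext h
  · intro N hN
    obtain ⟨v, _, rfl⟩ := mem_image.mp hN
    exact ⟨qm G v, mem_univ _, rfl⟩
  · intro a _
    rfl

theorem card_NB (G : SimpleGraph V) : (NB G).card = Fintype.card (Qt G) := by
  rw [card_eq_sum_ones, ← card_univ, card_eq_sum_ones]
  exact (sum_NB G (fun _ => 1)).symm

theorem card_NB_filter (G : SimpleGraph V) (s : ℕ) :
    ((NB G).filter (fun N => mult G N = s)).card = (univ.filter (fun a => wt G a = s)).card := by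
  rw [card_filter, card_filter, ← sum_NB G (fun N => if mult G N = s then 1 else 0)]
  apply sum_congr rfl
  intro a _
  rw [mult_eq]

theorem excess_NB (G : SimpleGraph V) (p q : ℕ) :
    ∑ N ∈ (NB G).filter (fun N => p ≤ mult G N ∧ mult G N ≤ q), (mult G N - p) =
      ∑ a ∈ PP G p (q - p + 1), (wt G a - p) := by
  unfold PP
  rw [sum_filter, sum_filter,
    ← sum_NB G (fun N => if p ≤ mult G N ∧ mult G N ≤ q then mult G N - p else 0)]
  apply sum_congr rfl
  intro a _
  rw [mult_eq]
  by_cases h : p ≤ wt G a ∧ wt G a ≤ q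
  · rw [if_pos h, if_pos (by omega)]
  · rw [if_neg h]
    by_cases h2 : p ≤ wt G a ∧ wt G a < p + (q - p + 1)
    · rw [if_pos h2]
      omega
    · rw [if_neg h2]

theorem form_A (G : SimpleGraph V) (h8 : 8 ≤ Fintype.card V) (s : ℕ) (hs : 1 ≤ s)
    (h : ((NB G).filter (fun N => mult G N = s)).card <
      ((NB G).filter (fun N => mult G N = s + 1)).card) :
    Reconstructible G ∧ Reconstructible Gᶜ := by
  refine rec_of G _ (fun H π hH hN => not_lt.mpr ?_) h
  rw [card_NB_filter, card_NB_filter]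
  exact lov_bound hH hN h8 s hs

theorem form_B (G : SimpleGraph V) (h8 : 8 ≤ Fintype.card V) (R : Set V) (hR : Rep G R)
    (p q : ℕ) (hp : 1 ≤ p)
    (h : (2 * Nat.card (G.induce R ≃g G.induce R)) ^ (q - p) < (q - p + 1) ^
      (∑ N ∈ (NB G).filter (fun N => p ≤ mult G N ∧ mult G N ≤ q), (mult G N - p))) :
    Reconstructible G ∧ Reconstructible Gᶜ := by
  refine rec_of G _ (fun H π hH hN => not_lt.mpr ?_) h
  rw [excess_NB]
  rcases Nat.eq_zero_or_pos (∑ a ∈ PP G p (q - p + 1), (wt G a - p)) with h0 | h0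
  · rw [h0, pow_zero]
    apply Nat.one_le_pow
    have := card_aut_pos G R
    omega
  · exact foot_bound hH hN h8 p (q - p + 1) hp h0 R hR

theorem form_C (G : SimpleGraph V) (h8 : 8 ≤ Fintype.card V)
    (h : (NB G).card * ((NB G).card + 1) < 2 * Fintype.card V) :
    Reconstructible G ∧ Reconstructible Gᶜ := by
  refine rec_of G _ (fun H π hH hN => not_lt.mpr ?_) h
  rw [card_NB]
  exact few_bound hH hN h8

theorem form_E (G : SimpleGraph V) (h8 : 8 ≤ Fintype.card V) (R : Set V) (hR : Rep G R)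
    (v : V) (h : 4 * Nat.card (G.induce R ≃g G.induce R) ^ 2 <
      mult G (nbh G v) ^ mult G (nbh G v)) :
    Reconstructible G ∧ Reconstructible Gᶜ := by
  refine rec_of G _ (fun H π hH hN => not_lt.mpr ?_) h
  have e1 : mult G (nbh G v) = wt G (qm G v) := mult_eq G (qm G v)
  rw [e1]
  exact big_bound hH hN h8 R hR (qm G v)

theorem form_G (G : SimpleGraph V) (h8 : 8 ≤ Fintype.card V) (R : Set V) (hR : Rep G R)
    (h : ((NB G).card : ℝ) + 2 * Real.logb 2 (2 * (Nat.card (G.induce R ≃g G.induce R) : ℝ)) ^ 2 ≤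
      (Fintype.card V : ℝ)) :
    Reconstructible G ∧ Reconstructible Gᶜ := by
  refine rec_of G _ (fun H π hH hN => not_le.mpr ?_) h
  have h1 := log_bound hH hN h8 R hR
  have h2 := sum_excess G
  have h3 : ((∑ a : Qt G, (wt G a - 1) : ℕ) : ℝ) + ((Fintype.card (Qt G) : ℕ) : ℝ) =
      (Fintype.card V : ℝ) := by exact_mod_cast h2
  rw [card_NB]
  linarith

section diversity

/-- no vertex distinguishes `x` and `y` -/
def Sim (G : SimpleGraph V) (x y : V) : Prop := ∀ z, z ≠ x → z ≠ y → (G.Adj x z ↔ G.Adj y z)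

/-- the class of `v` -/
noncomputable def typ (G : SimpleGraph V) (v : V) : Finset V := univ.filter (fun y => Sim G v y)

theorem mem_typ (G : SimpleGraph V) (v y : V) : y ∈ typ G v ↔ Sim G v y := by
  unfold typ
  rw [mem_filter]
  exact ⟨fun h => h.2, fun h => ⟨mem_univ _, h⟩⟩

theorem typ_eq (G : SimpleGraph V) (v : V) : typ G v = insert v (tw G v ∪ tw Gᶜ v) := by
  ext y
  rw [mem_typ, mem_insert, mem_union, mem_tw, mem_tw]
  constructor
  · intro h
    by_cases hy : y = v
    · left; exact hy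
    · right
      by_cases hadj : G.Adj v y
      · right
        refine ⟨hy, fun z => ?_⟩
        rw [SimpleGraph.compl_adj, SimpleGraph.compl_adj]
        by_cases hzv : z = v
        · rw [hzv]
          exact ⟨fun h1 => absurd hadj.symm h1.2, fun h1 => absurd rfl h1.1⟩
        · by_cases hzy : z = y
          · rw [hzy]
            exact ⟨fun h1 => absurd rfl h1.1, fun h1 => absurd hadj h1.2⟩
          · have := h z hzv hzy
            rw [this]
            exact ⟨fun h1 => ⟨fun e => hzv e.symm, h1.2⟩, fun h1 => ⟨fun e => hzy e.symm, h1.2⟩⟩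
      · left
        refine ⟨hy, fun z => ?_⟩
        by_cases hzv : z = v
        · rw [hzv]
          exact ⟨fun h1 => absurd h1.symm hadj, fun h1 => absurd h1 G.irrefl⟩
        · by_cases hzy : z = y
          · rw [hzy]
            exact ⟨fun h1 => absurd h1 G.irrefl, fun h1 => absurd h1 hadj⟩
          · exact (h z hzv hzy).symm
  · rintro (rfl | ⟨h1, h2⟩ | ⟨h1, h2⟩)
    · intro z _ _
      exact Iff.rfl
    · intro z _ _
      exact (h2 z).symm
    · intro z hz1 hz2
      have h3 := h2 z
      rw [SimpleGraph.compl_adj, SimpleGraph.compl_adj] at h3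
      constructor
      · intro h4
        by_contra h5
        exact (h3.mp ⟨hz2.symm, h5⟩).2 h4
      · intro h4
        by_contra h5
        exact (h3.mpr ⟨hz1.symm, h5⟩).2 h4

theorem tw_disj (G : SimpleGraph V) (v : V) (h : (tw G v).Nonempty) : tw Gᶜ v = ∅ := by
  obtain ⟨u, hu⟩ := h
  rw [eq_empty_iff_forall_notMem]
  intro y hy
  rw [mem_tw] at hu hy
  have h1 : ¬ Gᶜ.Adj v y := by
    rw [← hy.2 y]
    exact SimpleGraph.irrefl _
  have h2 : G.Adj v y := by
    by_contra h
    exact h1 ((SimpleGraph.compl_adj _ _ _).mpr ⟨hy.1.symm, h⟩)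
  have h3 : G.Adj u y := (hu.2 y).mpr h2
  have h4 : ¬ G.Adj v u := by
    rw [← hu.2 u]
    exact G.irrefl
  have h5 : Gᶜ.Adj v u := (SimpleGraph.compl_adj _ _ _).mpr ⟨hu.1.symm, h4⟩
  have h6 := (hy.2 u).mpr h5
  exact ((SimpleGraph.compl_adj _ _ _).mp h6).2 h3.symm

theorem tw_symm (G : SimpleGraph V) (x y : V) (h : x ∈ tw G y) : y ∈ tw G x := by
  rw [mem_tw] at h ⊢
  exact ⟨h.1.symm, fun z => (h.2 z).symm⟩

/-- the classes with at least two members -/
noncomputable def big (G : SimpleGraph V) : Finset (Qt G) := univ.filter (fun a => 2 ≤ wt G a)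

/-- the vertices in these classes -/
noncomputable def SS (G : SimpleGraph V) : Finset V := univ.filter (fun v => (tw G v).Nonempty)

theorem mem_SS (G : SimpleGraph V) (v : V) : v ∈ SS G ↔ (tw G v).Nonempty := by
  unfold SS
  rw [mem_filter]
  exact ⟨fun h => h.2, fun h => ⟨mem_univ _, h⟩⟩

theorem mem_big (G : SimpleGraph V) (v : V) : qm G v ∈ big G ↔ v ∈ SS G := by
  unfold big
  rw [mem_filter, wt_qm, mem_SS, ← card_pos]
  constructor
  · rintro ⟨_, h⟩; omega
  · intro h; exact ⟨mem_univ _, by omega⟩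

theorem card_SS (G : SimpleGraph V) : (SS G).card = ∑ a ∈ big G, wt G a := by
  have h1 := card_eq_sum_card_fiberwise (f := qm G) (s := SS G) (t := big G)
    (fun v hv => mem_coe.mpr ((mem_big G v).mpr (mem_coe.mp hv)))
  rw [h1]
  apply sum_congr rfl
  intro a ha
  unfold wt
  congr 1
  ext v
  rw [mem_filter, mem_filter]
  constructor
  · rintro ⟨_, h⟩; exact ⟨mem_univ _, h⟩
  · rintro ⟨_, h⟩
    exact ⟨(mem_big G v).mp (by rw [h]; exact ha), h⟩

/-- the set of the members of a class -/
noncomputable def mem' (G : SimpleGraph V) (a : Qt G) : Finset V :=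
  univ.filter (fun x => qm G x = a)

theorem typ_big (G : SimpleGraph V) (v : V) (h : v ∈ SS G) : typ G v = mem' G (qm G v) := by
  rw [typ_eq, tw_disj G v ((mem_SS G v).mp h), union_empty]
  unfold mem'
  ext x
  rw [mem_filter, mem_insert, mem_tw, qm_eq]
  constructor
  · rintro (rfl | h)
    · exact ⟨mem_univ _, fun _ => Iff.rfl⟩
    · exact ⟨mem_univ _, h.2⟩
  · rintro ⟨_, h⟩
    by_cases hx : x = v
    · left; exact hx
    · right; exact ⟨hx, h⟩

theorem card_big (G : SimpleGraph V) : ((SS G).image (fun v => typ G v)).card = (big G).card := by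
  have h1 : (SS G).image (fun v => typ G v) = (big G).image (fun a => mem' G a) := by
    ext X
    rw [mem_image, mem_image]
    constructor
    · rintro ⟨v, hv, rfl⟩
      exact ⟨qm G v, (mem_big G v).mpr hv, (typ_big G v hv).symm⟩
    · rintro ⟨a, ha, rfl⟩
      obtain ⟨v, rfl⟩ := qm_surj G a
      have hv := (mem_big G v).mp ha
      exact ⟨v, hv, typ_big G v hv⟩
  rw [h1, card_image_of_injective]
  intro a b hab
  obtain ⟨v, rfl⟩ := qm_surj G a
  have h2 : v ∈ mem' G (qm G v) := mem_filter.mpr ⟨mem_univ _, rfl⟩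
  simp only at hab
  rw [hab] at h2
  exact (mem_filter.mp h2).2

theorem typ_compl (G : SimpleGraph V) (v : V) : typ Gᶜ v = typ G v := by
  rw [typ_eq, typ_eq, compl_compl, union_comm]

theorem SS_disj (G : SimpleGraph V) (v : V) (h : v ∈ SS G) : v ∉ SS Gᶜ := by
  intro h2
  rw [mem_SS] at h h2
  rw [tw_disj G v h] at h2
  exact not_nonempty_empty h2

theorem card_typ (G : SimpleGraph V) :
    (big G).card + (big Gᶜ).card + (univ.filter (fun v => v ∉ SS G ∧ v ∉ SS Gᶜ)).card ≤
      (univ.image (fun v => typ G v)).card := by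
  set W := univ.filter (fun v => v ∉ SS G ∧ v ∉ SS Gᶜ) with hW
  have hWt : ∀ v ∈ W, typ G v = {v} := by
    intro v hv
    rw [hW, mem_filter, mem_SS, mem_SS, not_nonempty_iff_eq_empty, not_nonempty_iff_eq_empty] at hv
    rw [typ_eq, hv.2.1, hv.2.2]
    simp
  have h1 : (SS Gᶜ).image (fun v => typ G v) = (SS Gᶜ).image (fun v => typ Gᶜ v) := by
    apply image_congr
    intro v _
    exact (typ_compl G v).symm
  have h2 : (W.image (fun v => typ G v)).card = W.card := by
    apply card_image_of_injOn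
    intro x hx y hy hxy
    simp only at hxy
    rw [hWt x (mem_coe.mp hx), hWt y (mem_coe.mp hy)] at hxy
    exact singleton_injective hxy
  rw [← card_big G, ← card_big Gᶜ, ← h1, ← h2]
  have hself : ∀ v, v ∈ typ G v := fun v => (mem_typ _ _ _).mpr (fun _ _ _ => Iff.rfl)
  -- members of the class of a vertex of `SS G` are in `SS G`
  have hcl : ∀ K : SimpleGraph V, ∀ v ∈ SS K, ∀ x ∈ typ K v, x ∈ SS K := by
    intro K v hv x hx
    rw [typ_big K v hv, mem', mem_filter] at hx
    rw [← mem_big, hx.2, mem_big]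
    exact hv
  have d12 : Disjoint ((SS G).image (fun v => typ G v)) ((SS Gᶜ).image (fun v => typ G v)) := by
    rw [Finset.disjoint_left]
    intro X h3 h4
    obtain ⟨v, hv, rfl⟩ := mem_image.mp h3
    obtain ⟨u, hu, huv⟩ := mem_image.mp h4
    have h5 := hself v
    rw [← huv, ← typ_compl] at h5
    exact SS_disj G v hv (hcl Gᶜ u hu v h5)
  have d3 : Disjoint ((SS G).image (fun v => typ G v) ∪ (SS Gᶜ).image (fun v => typ G v))
      (W.image (fun v => typ G v)) := by
    rw [Finset.disjoint_left]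
    intro X h3 h4
    obtain ⟨v, hv, rfl⟩ := mem_image.mp h4
    have hv' := (mem_filter.mp (hW ▸ hv)).2
    rcases mem_union.mp h3 with h5 | h5
    · obtain ⟨u, hu, huv⟩ := mem_image.mp h5
      have h6 := hself v
      rw [← huv] at h6
      exact hv'.1 (hcl G u hu v h6)
    · obtain ⟨u, hu, huv⟩ := mem_image.mp h5
      have h6 := hself v
      rw [← huv, ← typ_compl] at h6
      exact hv'.2 (hcl Gᶜ u hu v h6)
  rw [← card_union_of_disjoint d12, ← card_union_of_disjoint d3]
  apply card_le_card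
  intro X hX
  rcases mem_union.mp hX with h3 | h3
  · rcases mem_union.mp h3 with h4 | h4
    · obtain ⟨v, _, rfl⟩ := mem_image.mp h4
      exact mem_image_of_mem _ (mem_univ _)
    · obtain ⟨v, _, rfl⟩ := mem_image.mp h4
      exact mem_image_of_mem _ (mem_univ _)
  · obtain ⟨v, _, rfl⟩ := mem_image.mp h3
    exact mem_image_of_mem _ (mem_univ _)

theorem big_excess {G H : SimpleGraph V} {π : V → Equiv.Perm V} (hH : Hypo G H π)
    (hN : NonIso G H) (h8 : 8 ≤ Fintype.card V) :
    2 * (SS G).card ≤ 2 * (big G).card + (big G).card * ((big G).card + 1) := by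
  have h1 := gauss_bound (fun a => wt G a - 1) _ (big G) rfl (by
    intro a ha t ht hta
    have ha' := (mem_filter.mp ha).2
    obtain ⟨b, hb⟩ := sizes_down hH hN h8 a (t + 1) (by omega) (by omega)
    exact ⟨b, mem_filter.mpr ⟨mem_univ _, by omega⟩, by omega⟩)
  have h2 : (SS G).card = (big G).card + ∑ a ∈ big G, (wt G a - 1) := by
    rw [card_SS, card_eq_sum_ones, ← sum_add_distrib]
    apply sum_congr rfl
    intro a ha
    have ha' := (mem_filter.mp ha).2
    omega
  rw [h2]
  omega

theorem div_bound {G H : SimpleGraph V} {π : V → Equiv.Perm V} (hH : Hypo G H π)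
    (hN : NonIso G H) (h8 : 8 ≤ Fintype.card V) :
    2 * Fintype.card V ≤ (univ.image (fun v => typ G v)).card *
      ((univ.image (fun v => typ G v)).card + 3) := by
  have h1 := big_excess hH hN h8
  have h2 := big_excess (compl_hypo hH) (compl_nonIso hN) h8
  have h3 := card_typ G
  have h4 : Fintype.card V = (SS G).card + (SS Gᶜ).card +
      (univ.filter (fun v => v ∉ SS G ∧ v ∉ SS Gᶜ)).card := by
    have d1 : Disjoint (SS G) (SS Gᶜ) := by
      rw [Finset.disjoint_left]
      exact fun v h => SS_disj G v h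
    rw [← card_union_of_disjoint d1, ← card_univ]
    have e : univ.filter (fun v => v ∉ SS G ∧ v ∉ SS Gᶜ) = (SS G ∪ SS Gᶜ)ᶜ := by
      ext v
      rw [mem_filter, mem_compl, mem_union, not_or]
      exact ⟨fun h => h.2, fun h => ⟨mem_univ _, h⟩⟩
    rw [e, card_compl, card_univ]
    have := card_le_univ (SS G ∪ SS Gᶜ)
    omega
  set r := (univ.image (fun v => typ G v)).card
  set w := (univ.filter (fun v => v ∉ SS G ∧ v ∉ SS Gᶜ)).card
  set d1 := (big G).card
  set d2 := (big Gᶜ).card
  have h5 : (d1 + d2) * (d1 + d2) ≤ r * r := Nat.mul_le_mul (by omega) (by omega)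
  nlinarith

theorem form_D (G : SimpleGraph V) (h8 : 8 ≤ Fintype.card V)
    (h : (univ.image (fun v => typ G v)).card * ((univ.image (fun v => typ G v)).card + 3) <
      2 * Fintype.card V) :
    Reconstructible G ∧ Reconstructible Gᶜ := by
  refine rec_of G _ (fun H π hH hN => not_lt.mpr ?_) h
  exact div_bound hH hN h8

end diversity

end Pool.Agent.R586.TW
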