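import Mathlib

set_option autoImplicit false
set_option linter.unusedSectionVars false

/-!
The support of a signed measure on a grid which is orthogonal to all products of few linear
factors.
-/

namespace Pool.Agent.R586.TW

open Finset

theorem pow_aux (k : ℕ) : ∀ j : ℕ, 1 ≤ j → j ≤ k + 1 →
    (k + 1) ^ (j - 1) ≤ j * k ^ (j - 1) := by
  intro j hj
  induction j, hj using Nat.le_induction with
  | base => intro _; simp
  | succ j hj ih =>
    intro h
    obtain ⟨i, rfl⟩ : ∃ i, j = i + 1 := ⟨j - 1, by omega⟩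
    have h1 := ih (by omega)
    simp only [Nat.add_sub_cancel] at *
    calc (k + 1) ^ (i + 1) = (k + 1) ^ i * (k + 1) := pow_succ _ _
      _ ≤ ((i + 1) * k ^ i) * (k + 1) := Nat.mul_le_mul_right _ h1
      _ = (i + 1) * k ^ (i + 1) + (i + 1) * k ^ i := by ring
      _ ≤ (i + 1) * k ^ (i + 1) + k * k ^ i := by
          apply Nat.add_le_add_left
          apply Nat.mul_le_mul_right
          omega
      _ = (i + 1 + 1) * k ^ (i + 1) := by ring

theorem pow_swap (j k : ℕ) (hj : 1 ≤ j) (hjk : j ≤ k) : k ^ (j - 1) ≤ j ^ (k - 1) := by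
  induction k, hjk using Nat.le_induction with
  | base => exact le_rfl
  | succ k hk ih =>
    have h1 := pow_aux k j hj (by omega)
    calc (k + 1) ^ (j - 1) ≤ j * k ^ (j - 1) := h1
      _ ≤ j * j ^ (k - 1) := Nat.mul_le_mul_left _ ih
      _ = j ^ (k + 1 - 1) := by
          rw [← pow_succ']
          congr 1
          omega

variable {Q : Type} [DecidableEq Q]

/-- the product of the linear factors of a list -/
def lp (l : List (Q × ℕ)) (y : Q → ℕ) : ℤ := (l.map (fun p => ((y p.1 : ℤ) - (p.2 : ℤ)))).prod

theorem lp_nil (y : Q → ℕ) : lp [] y = 1 := rfl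

theorem lp_cons (a : Q) (t : ℕ) (l : List (Q × ℕ)) (y : Q → ℕ) :
    lp ((a, t) :: l) y = ((y a : ℤ) - (t : ℤ)) * lp l y := by
  simp [lp]

theorem lp_append (l l' : List (Q × ℕ)) (y : Q → ℕ) : lp (l ++ l') y = lp l y * lp l' y := by
  simp [lp]

theorem lp_eq_zero (l : List (Q × ℕ)) (y : Q → ℕ) : lp l y = 0 ↔ ∃ p ∈ l, y p.1 = p.2 := by
  unfold lp
  rw [List.prod_eq_zero_iff, List.mem_map]
  constructor
  · rintro ⟨p, hp, h⟩
    exact ⟨p, hp, by omega⟩
  · rintro ⟨p, hp, h⟩
    exact ⟨p, hp, by rw [h]; simp⟩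

theorem foot (k : ℕ) (n : ℕ) : ∀ (S : Finset (Q → ℕ)) (μ : (Q → ℕ) → ℤ) (e : ℕ),
    S.card = n → S.Nonempty → 1 ≤ e → (∀ y ∈ S, μ y ≠ 0) →
    (∀ a, (S.image (fun y => y a)).card ≤ k) →
    (∀ l : List (Q × ℕ), l.length < e → ∑ y ∈ S, μ y * lp l y = 0) →
    k ^ e ≤ S.card ^ (k - 1) := by
  induction n using Nat.strong_induction_on with
  | _ n ih =>
  intro S μ e hn hS he hμ hk horth
  by_cases hconst : ∀ a, (S.image (fun y => y a)).card ≤ 1
  · exfalso
    obtain ⟨y0, hy0⟩ := hS
    have hS1 : S = {y0} := by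
      ext y
      rw [mem_singleton]
      constructor
      · intro hy
        funext a
        exact card_le_one.mp (hconst a) _ (mem_image_of_mem _ hy) _ (mem_image_of_mem _ hy0)
      · rintro rfl
        exact hy0
    have h1 := horth [] (by rw [List.length_nil]; omega)
    rw [hS1, sum_singleton, lp_nil, mul_one] at h1
    exact hμ y0 hy0 h1
  · push Not at hconst
    obtain ⟨a, ha⟩ := hconst
    set I := S.image (fun y => y a) with hI
    set j := I.card with hj
    obtain ⟨t0, ht0, hmin⟩ := exists_min_image I (fun t => (S.filter (fun y => y a = t)).card)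
      (hS.image _)
    set S' := S.filter (fun y => y a = t0) with hS'
    have hsum : S.card = ∑ t ∈ I, (S.filter (fun y => y a = t)).card :=
      card_eq_sum_card_image (fun y => y a) S
    have hjS : j * S'.card ≤ S.card := by
      rw [hsum, hj, ← smul_eq_mul, ← sum_const]
      exact sum_le_sum (fun t ht => hmin t ht)
    have hS'ne : S'.Nonempty := by
      obtain ⟨y, hy, hyt⟩ := mem_image.mp ht0
      exact ⟨y, mem_filter.mpr ⟨hy, hyt⟩⟩
    have hS'pos : 0 < S'.card := card_pos.mpr hS'ne
    have hlt : S'.card < n := by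
      rw [← hn]
      have : 2 * S'.card ≤ j * S'.card := Nat.mul_le_mul_right _ ha
      omega
    have hjk : j ≤ k := hk a
    have hk1 : 1 ≤ k := by omega
    by_cases hej : e ≤ j - 1
    · calc k ^ e ≤ k ^ (j - 1) := Nat.pow_le_pow_right hk1 hej
        _ ≤ j ^ (k - 1) := pow_swap j k (by omega) hjk
        _ ≤ S.card ^ (k - 1) := by
            apply Nat.pow_le_pow_left
            calc j = j * 1 := (mul_one j).symm
              _ ≤ j * S'.card := Nat.mul_le_mul_left _ hS'pos
              _ ≤ S.card := hjS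
    · push Not at hej
      set L0 : List (Q × ℕ) := (I.erase t0).toList.map (fun t => (a, t)) with hL0
      have hL0len : L0.length = j - 1 := by
        rw [hL0, List.length_map, Finset.length_toList, card_erase_of_mem ht0]
      have hmem : ∀ p : Q × ℕ, p ∈ L0 ↔ p.1 = a ∧ p.2 ∈ I.erase t0 := by
        intro p
        rw [hL0, List.mem_map]
        constructor
        · rintro ⟨t, ht, rfl⟩
          exact ⟨rfl, Finset.mem_toList.mp ht⟩
        · rintro ⟨h1, h2⟩
          exact ⟨p.2, Finset.mem_toList.mpr h2, by rw [← h1]⟩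
      have hne : ∀ y ∈ S', lp L0 y ≠ 0 := by
        intro y hy h
        obtain ⟨p, hp, h1⟩ := (lp_eq_zero _ _).mp h
        obtain ⟨h2, h3⟩ := (hmem p).mp hp
        rw [h2, (mem_filter.mp hy).2] at h1
        exact (mem_erase.mp h3).1 h1.symm
      have hz : ∀ y ∈ S, y ∉ S' → lp L0 y = 0 := by
        intro y hy hy'
        rw [lp_eq_zero]
        refine ⟨(a, y a), (hmem _).mpr ⟨rfl, mem_erase.mpr ⟨?_, mem_image_of_mem _ hy⟩⟩, rfl⟩
        intro h
        exact hy' (mem_filter.mpr ⟨hy, h⟩)
      have hmain := ih S'.card hlt S' (fun y => μ y * lp L0 y) (e - (j - 1)) rfl hS'ne (by omega)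
        (fun y hy => mul_ne_zero (hμ y (mem_filter.mp hy).1) (hne y hy))
        (fun b => (card_le_card (image_subset_image (filter_subset (fun y => y a = t0) S))).trans (hk b))
        (by
          intro l hl
          have h1 := horth (L0 ++ l) (by rw [List.length_append, hL0len]; omega)
          rw [← h1, ← sum_subset (filter_subset (fun y => y a = t0) S)]
          · apply sum_congr rfl
            intro y _
            rw [lp_append]
            ring
          · intro y hy hy'
            rw [lp_append, hz y hy hy']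
            ring)
      calc k ^ e = k ^ (j - 1) * k ^ (e - (j - 1)) := by
            rw [← pow_add]
            congr 1
            omega
        _ ≤ j ^ (k - 1) * S'.card ^ (k - 1) :=
            Nat.mul_le_mul (pow_swap j k (by omega) hjk) hmain
        _ = (j * S'.card) ^ (k - 1) := (mul_pow _ _ _).symm
        _ ≤ S.card ^ (k - 1) := Nat.pow_le_pow_left hjS _

end Pool.Agent.R586.TW
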