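import Pool.Agent.R586.TW.Foot

set_option autoImplicit false
set_option linter.unusedSectionVars false

/-!
Kelly's lemma for weight functions on a set with a group action.
-/

namespace Pool.Agent.R586.TW

open Finset Classical

/-- decrease the value at `b` by one -/
def dl {Q : Type} [DecidableEq Q] (w : Q → ℕ) (b a : Q) : ℕ := if a = b then w a - 1 else w a

theorem ch_id (w c : ℕ) : (w : ℤ) * ((w - 1).choose c : ℤ) = ((w : ℤ) - c) * (w.choose c : ℤ) := by
  rcases w with _ | n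
  · rcases c with _ | c <;> simp
  · rw [Nat.add_sub_cancel]
    rcases le_or_gt c (n + 1) with h | h
    · have h1 := Nat.add_one_mul_choose_eq n c
      have h2 : (n + 1).choose (c + 1) * (c + 1) = (n + 1).choose c * (n + 1 - c) :=
        Nat.choose_succ_right_eq (n + 1) c
      have h3 : (n + 1) * n.choose c = (n + 1).choose c * (n + 1 - c) := by
        rw [← h2]; exact h1
      have h4 := congrArg (fun t : ℕ => (t : ℤ)) h3
      simp only [Nat.cast_mul] at h4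
      rw [Nat.cast_sub h] at h4
      rw [h4]
      ring
    · rw [Nat.choose_eq_zero_of_lt (by omega : n < c), Nat.choose_eq_zero_of_lt h]
      simp

section kelly

variable {Q : Type} [Fintype Q] (Γ : Subgroup (Equiv.Perm Q)) (P : Finset Q)

/-- the sum over the group of the products of the binomial coefficients -/
noncomputable def FF (c u : Q → ℕ) : ℤ := ∑ γ : Γ, ∏ a ∈ P, ((u ((γ : Equiv.Perm Q) a)).choose (c a) : ℤ)

theorem FF_sum (hP : ∀ γ ∈ Γ, ∀ a, γ a ∈ P ↔ a ∈ P) (c u : Q → ℕ) :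
    ∑ b ∈ P, (u b : ℤ) * FF Γ P c (dl u b) =
      ((∑ b ∈ P, (u b : ℤ)) - ∑ a ∈ P, (c a : ℤ)) * FF Γ P c u := by
  unfold FF
  simp_rw [mul_sum]
  rw [sum_comm]
  apply sum_congr rfl
  intro γ _
  set g : Equiv.Perm Q := (γ : Equiv.Perm Q) with hg
  have hgP : ∀ a, g a ∈ P ↔ a ∈ P := hP g γ.2
  have h1 : ∀ f : Q → ℤ, ∑ b ∈ P, f b = ∑ a ∈ P, f (g a) := by
    intro f
    symm
    apply sum_bij' (fun a _ => g a) (fun b _ => g.symm b)
    · intro a ha; exact (hgP a).mpr ha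
    · intro b hb; rw [← hgP, Equiv.apply_symm_apply]; exact hb
    · intro a _; simp
    · intro b _; simp
    · intro a _; rfl
  rw [h1 (fun b => (u b : ℤ) * ∏ a ∈ P, ((dl u b (g a)).choose (c a) : ℤ)), h1 (fun b => (u b : ℤ)),
    ← sum_sub_distrib, sum_mul]
  apply sum_congr rfl
  intro a0 ha0
  rw [← mul_prod_erase P (fun a => ((dl u (g a0) (g a)).choose (c a) : ℤ)) ha0,
    ← mul_prod_erase P (fun a => ((u (g a)).choose (c a) : ℤ)) ha0, ← mul_assoc, ← mul_assoc]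
  congr 1
  · have : dl u (g a0) (g a0) = u (g a0) - 1 := by simp [dl]
    rw [this, ch_id]
  · apply prod_congr rfl
    intro a ha
    have : g a ≠ g a0 := fun h => (mem_erase.mp ha).1 (g.injective h)
    have h2 : dl u (g a0) (g a) = u (g a) := by simp [dl, this]
    rw [h2]

variable {V : Type} [Fintype V]

theorem FF_deck (hP : ∀ γ ∈ Γ, ∀ a, γ a ∈ P ↔ a ∈ P) (p : ℕ) (w : Q → ℕ) (q : V → Q)
    (hw : ∀ a, w a = (univ.filter (fun x => q x = a)).card)
    (T : Finset V) (hT : ∀ v, v ∈ T ↔ q v ∈ P ∧ p < w (q v)) (c : Q → ℕ)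
    (hc : ∀ a ∈ P, p ≤ c a) :
    ∑ v ∈ T, FF Γ P c (dl w (q v)) =
      ((∑ b ∈ P, (w b : ℤ)) - ∑ a ∈ P, (c a : ℤ)) * FF Γ P c w := by
  rw [← FF_sum Γ P hP c w]
  have h1 : ∑ v ∈ T, FF Γ P c (dl w (q v)) =
      ∑ b ∈ P, ∑ v ∈ T.filter (fun v => q v = b), FF Γ P c (dl w (q v)) := by
    symm
    exact sum_fiberwise_of_maps_to (g := q) (fun v hv => ((hT v).mp hv).1) _
  rw [h1]
  apply sum_congr rfl
  intro b hb
  by_cases hpb : p < w b
  · have h2 : T.filter (fun v => q v = b) = univ.filter (fun x => q x = b) := by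
      ext v
      rw [mem_filter, mem_filter, hT]
      constructor
      · rintro ⟨_, h⟩; exact ⟨mem_univ _, h⟩
      · rintro ⟨_, h⟩
        exact ⟨⟨by rw [h]; exact hb, by rw [h]; exact hpb⟩, h⟩
    rw [h2, hw b, ← nsmul_eq_mul, ← sum_const]
    apply sum_congr rfl
    intro v hv
    rw [(mem_filter.mp hv).2]
  · have h2 : T.filter (fun v => q v = b) = ∅ := by
      rw [filter_eq_empty_iff]
      intro v hv h
      exact hpb (h ▸ ((hT v).mp hv).2)
    rw [h2, sum_empty]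
    symm
    rcases Nat.eq_zero_or_pos (w b) with h0 | h0
    · rw [h0]; simp
    · have h3 : FF Γ P c (dl w b) = 0 := by
        unfold FF
        apply sum_eq_zero
        intro γ _
        have hm : (γ : Equiv.Perm Q).symm b ∈ P := by
          rw [← hP γ γ.2, Equiv.apply_symm_apply]; exact hb
        apply prod_eq_zero hm
        rw [Equiv.apply_symm_apply]
        have h4 : dl w b b = w b - 1 := by simp [dl]
        rw [h4, Nat.choose_eq_zero_of_lt]
        · simp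
        · have := hc _ hm
          omega
      rw [h3, mul_zero]

theorem FF_inv (c u u' : Q → ℕ) (g : Γ) (h : ∀ a, u' ((g : Equiv.Perm Q) a) = u a) :
    FF Γ P c u = FF Γ P c u' := by
  unfold FF
  rw [← Equiv.sum_comp (Equiv.mulLeft g) (fun γ : Γ => ∏ a ∈ P,
    ((u' ((γ : Equiv.Perm Q) a)).choose (c a) : ℤ))]
  apply sum_congr rfl
  intro γ _
  apply prod_congr rfl
  intro a _
  rw [Equiv.coe_mulLeft, Subgroup.coe_mul, Equiv.Perm.mul_apply, h]

/-- the hypotheses -/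
structure Dk (p : ℕ) (w w' : Q → ℕ) (q q' : V → Q) (T : Finset V) : Prop where
  hP : ∀ γ ∈ Γ, ∀ a, γ a ∈ P ↔ a ∈ P
  hout : ∀ γ ∈ Γ, ∀ a, a ∉ P → w (γ a) = w a
  hw : ∀ a, w a = (univ.filter (fun x => q x = a)).card
  hw' : ∀ a, w' a = (univ.filter (fun x => q' x = a)).card
  hww : ∀ a, a ∉ P → w' a = w a
  hp : ∀ a ∈ P, p ≤ w a
  hp' : ∀ a ∈ P, p ≤ w' a
  hT : ∀ v, v ∈ T ↔ q v ∈ P ∧ p < w (q v)
  hT' : ∀ v, v ∈ T ↔ q' v ∈ P ∧ p < w' (q' v)
  hs : ∑ b ∈ P, w b = ∑ b ∈ P, w' b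
  hd : ∀ v ∈ T, ∃ g : Γ, ∀ a, dl w' (q' v) ((g : Equiv.Perm Q) a) = dl w (q v) a

variable {Γ P} {p : ℕ} {w w' : Q → ℕ} {q q' : V → Q} {T : Finset V}

theorem Dk.kelly (h : Dk Γ P p w w' q q' T) (c : Q → ℕ) (hc : ∀ a ∈ P, p ≤ c a)
    (hlt : ∑ a ∈ P, c a < ∑ a ∈ P, w a) : FF Γ P c w = FF Γ P c w' := by
  have h1 := FF_deck Γ P h.hP p w q h.hw T h.hT c hc
  have h2 := FF_deck Γ P h.hP p w' q' h.hw' T h.hT' c hc
  have h3 : ∑ v ∈ T, FF Γ P c (dl w (q v)) = ∑ v ∈ T, FF Γ P c (dl w' (q' v)) := by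
    apply sum_congr rfl
    intro v hv
    obtain ⟨g, hg⟩ := h.hd v hv
    exact FF_inv Γ P c _ _ g hg
  have h4 : (∑ b ∈ P, (w b : ℤ)) = ∑ b ∈ P, (w' b : ℤ) := by exact_mod_cast h.hs
  rw [h1, h2, ← h4] at h3
  have h5 : ((∑ b ∈ P, (w b : ℤ)) - ∑ a ∈ P, (c a : ℤ)) ≠ 0 := by
    have : (∑ a ∈ P, (c a : ℤ)) < ∑ b ∈ P, (w b : ℤ) := by exact_mod_cast hlt
    omega
  exact mul_left_cancel₀ h5 h3

/-- the product of the binomial coefficients, an invariant -/
def KK (P : Finset Q) (p : ℕ) (u : Q → ℕ) : ℤ := ∏ a ∈ P, ((u a).choose p : ℤ)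

/-- the sum over the group of the shifted products -/
noncomputable def PS (Γ : Subgroup (Equiv.Perm Q)) (P : Finset Q) (p : ℕ) (d u : Q → ℕ) : ℤ :=
  ∑ γ : Γ, ∏ a ∈ P, ((u ((γ : Equiv.Perm Q) a) - p).choose (d a) : ℤ)

theorem PS_mul (hP : ∀ γ ∈ Γ, ∀ a, γ a ∈ P ↔ a ∈ P) (d u : Q → ℕ) (hu : ∀ a ∈ P, p ≤ u a) :
    KK P p u * PS Γ P p d u = (∏ a ∈ P, ((p + d a).choose p : ℤ)) * FF Γ P (fun a => p + d a) u := by
  unfold PS FF
  rw [mul_sum, mul_sum]
  apply sum_congr rfl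
  intro γ _
  set g : Equiv.Perm Q := (γ : Equiv.Perm Q) with hg
  have hgP : ∀ a, g a ∈ P ↔ a ∈ P := hP g γ.2
  have h1 : KK P p u = ∏ a ∈ P, ((u (g a)).choose p : ℤ) := by
    unfold KK
    symm
    apply prod_bij' (fun a _ => g a) (fun b _ => g.symm b)
    · intro a ha; exact (hgP a).mpr ha
    · intro b hb; rw [← hgP, Equiv.apply_symm_apply]; exact hb
    · intro a _; simp
    · intro b _; simp
    · intro a _; rfl
  rw [h1, ← prod_mul_distrib, ← prod_mul_distrib]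
  apply prod_congr rfl
  intro a ha
  have hpu := hu (g a) ((hgP a).mpr ha)
  rcases le_or_gt (p + d a) (u (g a)) with h | h
  · have h2 := Nat.choose_mul (n := u (g a)) (k := p + d a) (s := p) (by omega)
    have e1 : p + d a - p = d a := by omega
    rw [e1] at h2
    have h3 := congrArg (fun t : ℕ => (t : ℤ)) h2
    simp only [Nat.cast_mul] at h3
    rw [← h3]
    ring
  · rw [Nat.choose_eq_zero_of_lt (by omega : u (g a) - p < d a), Nat.choose_eq_zero_of_lt h]
    simp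

theorem KK_pos (u : Q → ℕ) (hu : ∀ a ∈ P, p ≤ u a) : KK P p u ≠ 0 := by
  unfold KK
  rw [prod_ne_zero_iff]
  intro a ha
  have := Nat.choose_pos (hu a ha)
  exact_mod_cast this.ne'

theorem Dk.ps (h : Dk Γ P p w w' q q' T) (d : Q → ℕ)
    (hlt : ∑ a ∈ P, d a < ∑ a ∈ P, (w a - p)) : PS Γ P p d w = PS Γ P p d w' := by
  have hsum : ∑ a ∈ P, w a = ∑ a ∈ P, (w a - p) + ∑ a ∈ P, p := by
    rw [← sum_add_distrib]
    apply sum_congr rfl
    intro a ha
    have := h.hp a ha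
    omega
  have key : ∀ d : Q → ℕ, ∑ a ∈ P, d a < ∑ a ∈ P, (w a - p) →
      KK P p w * PS Γ P p d w = KK P p w' * PS Γ P p d w' := by
    intro d hlt
    rw [PS_mul h.hP d w h.hp, PS_mul h.hP d w' h.hp',
      h.kelly (fun a => p + d a) (fun a _ => by omega) (by rw [sum_add_distrib]; omega)]
  have h0 : PS Γ P p (fun _ => 0) w = PS Γ P p (fun _ => 0) w' := by
    unfold PS
    simp
  have h1 := key (fun _ => 0) (by
    rw [sum_const_zero]
    omega)
  have h2 : PS Γ P p (fun _ => 0) w' ≠ 0 := by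
    unfold PS
    simp
  rw [h0] at h1
  have h3 : KK P p w = KK P p w' := mul_right_cancel₀ h2 h1
  have h4 := key d hlt
  rw [← h3] at h4
  exact mul_left_cancel₀ (KK_pos w h.hp) h4

/-- the sum over the group with linear factors -/
noncomputable def LS (Γ : Subgroup (Equiv.Perm Q)) (P : Finset Q) (p : ℕ) (l : List (Q × ℕ))
    (d u : Q → ℕ) : ℤ :=
  ∑ γ : Γ, lp l (fun a => u ((γ : Equiv.Perm Q) a)) *
    ∏ a ∈ P, ((u ((γ : Equiv.Perm Q) a) - p).choose (d a) : ℤ)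

theorem ch_up (y d : ℕ) : (y : ℤ) * (y.choose d : ℤ) =
    ((d : ℤ) + 1) * (y.choose (d + 1) : ℤ) + (d : ℤ) * (y.choose d : ℤ) := by
  rcases le_or_gt d y with h | h
  · have h1 := Nat.choose_succ_right_eq y d
    have h2 := congrArg (fun t : ℕ => (t : ℤ)) h1
    simp only [Nat.cast_mul, Nat.cast_add, Nat.cast_one] at h2
    rw [Nat.cast_sub h] at h2
    linarith
  · rw [Nat.choose_eq_zero_of_lt h, Nat.choose_eq_zero_of_lt (by omega : y < d + 1)]
    simp

theorem LS_in (hP : ∀ γ ∈ Γ, ∀ a, γ a ∈ P ↔ a ∈ P) (a0 : Q) (ha0 : a0 ∈ P) (t : ℕ)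
    (l : List (Q × ℕ)) (d u : Q → ℕ) (hu : ∀ a ∈ P, p ≤ u a) :
    LS Γ P p ((a0, t) :: l) d u =
      ((d a0 : ℤ) + 1) * LS Γ P p l (fun a => if a = a0 then d a + 1 else d a) u +
      ((d a0 : ℤ) + p - t) * LS Γ P p l d u := by
  unfold LS
  rw [mul_sum, mul_sum, ← sum_add_distrib]
  apply sum_congr rfl
  intro γ _
  set g : Equiv.Perm Q := (γ : Equiv.Perm Q) with hg
  have hgP : ∀ a, g a ∈ P ↔ a ∈ P := hP g γ.2
  rw [lp_cons]
  rw [← mul_prod_erase P (fun a => ((u (g a) - p).choose (d a) : ℤ)) ha0,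
    ← mul_prod_erase P (fun a => ((u (g a) - p).choose (if a = a0 then d a + 1 else d a) : ℤ)) ha0]
  have h1 : ∏ a ∈ P.erase a0, ((u (g a) - p).choose (if a = a0 then d a + 1 else d a) : ℤ) =
      ∏ a ∈ P.erase a0, ((u (g a) - p).choose (d a) : ℤ) := by
    apply prod_congr rfl
    intro a ha
    rw [if_neg (mem_erase.mp ha).1]
  rw [h1, if_pos rfl]
  have h2 := ch_up (u (g a0) - p) (d a0)
  rw [Nat.cast_sub (hu (g a0) ((hgP a0).mpr ha0))] at h2
  have h3 : ((u (g a0) : ℤ) - t) * ((u (g a0) - p).choose (d a0) : ℤ) =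
      ((d a0 : ℤ) + 1) * ((u (g a0) - p).choose (d a0 + 1) : ℤ) +
      ((d a0 : ℤ) + p - t) * ((u (g a0) - p).choose (d a0) : ℤ) := by linarith
  calc _ = (((u (g a0) : ℤ) - t) * ((u (g a0) - p).choose (d a0) : ℤ)) *
        (lp l (fun a => u (g a)) * ∏ a ∈ P.erase a0, ((u (g a) - p).choose (d a) : ℤ)) := by ring
    _ = _ := by rw [h3]; ring

theorem Dk.ls (h : Dk Γ P p w w' q q' T) : ∀ (l : List (Q × ℕ)) (d : Q → ℕ),
    l.length + ∑ a ∈ P, d a < ∑ a ∈ P, (w a - p) → LS Γ P p l d w = LS Γ P p l d w' := by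
  intro l
  induction l with
  | nil =>
    intro d hlt
    have h1 := h.ps d (by rw [List.length_nil] at hlt; omega)
    unfold LS
    unfold PS at h1
    simpa [lp_nil] using h1
  | cons x l ih =>
    obtain ⟨a0, t⟩ := x
    intro d hlt
    rw [List.length_cons] at hlt
    by_cases ha0 : a0 ∈ P
    · rw [LS_in h.hP a0 ha0 t l d w h.hp, LS_in h.hP a0 ha0 t l d w' h.hp', ih d (by omega),
        ih _ (by
          have : ∑ a ∈ P, (if a = a0 then d a + 1 else d a) = ∑ a ∈ P, d a + 1 := by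
            rw [← add_sum_erase P _ ha0, ← add_sum_erase P d ha0, if_pos rfl]
            have h5 : ∑ a ∈ P.erase a0, (if a = a0 then d a + 1 else d a) =
                ∑ a ∈ P.erase a0, d a := by
              apply sum_congr rfl
              intro a ha
              rw [if_neg (mem_erase.mp ha).1]
            rw [h5]
            omega
          rw [this]
          omega)]
    · have h1 : ∀ u : Q → ℕ, (∀ γ ∈ Γ, u (γ a0) = w a0) →
          LS Γ P p ((a0, t) :: l) d u = ((w a0 : ℤ) - t) * LS Γ P p l d u := by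
        intro u hu
        unfold LS
        rw [mul_sum]
        apply sum_congr rfl
        intro γ _
        rw [lp_cons, hu γ γ.2]
        ring
      rw [h1 w (fun γ hγ => h.hout γ hγ a0 ha0), h1 w' (fun γ hγ => by
        rw [h.hww _ (fun hh => ha0 ((h.hP γ hγ a0).mp hh))]
        exact h.hout γ hγ a0 ha0), ih d (by omega)]

/-- products of fewer than `e` linear factors have equal sums over the two orbits -/
theorem Dk.lin (h : Dk Γ P p w w' q q' T) (l : List (Q × ℕ))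
    (hl : l.length < ∑ a ∈ P, (w a - p)) :
    ∑ γ : Γ, lp l (fun a => w ((γ : Equiv.Perm Q) a)) =
      ∑ γ : Γ, lp l (fun a => w' ((γ : Equiv.Perm Q) a)) := by
  have h1 := h.ls l (fun _ => 0) (by rw [sum_const_zero]; omega)
  unfold LS at h1
  simpa using h1

end kelly

end Pool.Agent.R586.TW
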