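import Pool.Agent.R586.TW.Quot

set_option autoImplicit false
set_option linter.unusedSectionVars false

/-!
The bounds for two hypomorphic graphs which are not isomorphic.
-/

namespace Pool.Agent.R586.TW

open Finset Classical
open Pool.Agent.H234RC (Hypo NonIso Reconstructible exists_hypo)

variable {V : Type} [Fintype V]

/-- Lovász type bound -/
theorem lov_bound {G H : SimpleGraph V} {π : V → Equiv.Perm V} (hH : Hypo G H π)
    (hN : NonIso G H) (h8 : 8 ≤ Fintype.card V) (p : ℕ) (hp : 1 ≤ p) :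
    (univ.filter (fun a => wt G a = p + 1)).card ≤ (univ.filter (fun a => wt G a = p)).card := by
  by_contra hcon
  push Not at hcon
  have h0 : 0 < (univ.filter (fun a => wt G a = p + 1)).card := by omega
  obtain ⟨a, ha⟩ := card_pos.mp h0
  rw [mem_filter] at ha
  obtain ⟨v0, rfl⟩ := qm_surj G a
  have h1 := ha.2
  rw [wt_qm] at h1
  obtain ⟨w', q', T, hD, hne, hr⟩ := exists_dk hH hN h8 p 2 hp v0 (by omega) (by omega)
  apply hne
  apply hD.lov
  · intro a ha
    have := (mem_PP _ _ _ _).mp ha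
    omega
  · intro a ha
    have := hr a ha
    omega
  · have e1 : (PP G p 2).filter (fun a => wt G a = p + 1) =
        univ.filter (fun a => wt G a = p + 1) := by
      ext a
      rw [mem_filter, mem_filter, mem_PP]
      constructor
      · rintro ⟨_, h⟩; exact ⟨mem_univ _, h⟩
      · rintro ⟨_, h⟩; exact ⟨by omega, h⟩
    have e2 : PP G p 2 = univ.filter (fun a => wt G a = p) ∪
        univ.filter (fun a => wt G a = p + 1) := by
      ext a
      rw [mem_union, mem_filter, mem_filter, mem_PP]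
      constructor
      · intro h
        by_cases h2 : wt G a = p
        · left; exact ⟨mem_univ _, h2⟩
        · right; exact ⟨mem_univ _, by omega⟩
      · rintro (⟨_, h⟩ | ⟨_, h⟩) <;> omega
    have e3 : (PP G p 2).card ≤ (univ.filter (fun a => wt G a = p)).card +
        (univ.filter (fun a => wt G a = p + 1)).card := by
      rw [e2]
      exact card_union_le _ _
    rw [e1]
    omega

/-- a set of representatives of the classes -/
def Rep (G : SimpleGraph V) (R : Set V) : Prop := ∀ v, ∃! x, x ∈ R ∧ nbh G x = nbh G v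

theorem nbh_eq (G : SimpleGraph V) (x y : V) : nbh G x = nbh G y ↔ qm G x = qm G y := by
  constructor
  · intro h
    exact Subtype.ext h
  · intro h
    exact congrArg Subtype.val h

/-- the group is not larger than the automorphism group of the graph on the representatives -/
theorem card_AG_le (G : SimpleGraph V) (P : Finset (Qt G)) (R : Set V) (hR : Rep G R) :
    Fintype.card (AG G P) ≤ Nat.card (G.induce R ≃g G.induce R) := by
  have hinj : Function.Injective (fun x : R => qm G (x : V)) := by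
    intro x y h
    obtain ⟨z, _, hz⟩ := hR (y : V)
    have h1 := hz x ⟨x.2, (nbh_eq _ _ _).mpr h⟩
    have h2 := hz y ⟨y.2, rfl⟩
    exact Subtype.ext (h1.trans h2.symm)
  have hsur : Function.Surjective (fun x : R => qm G (x : V)) := by
    intro a
    obtain ⟨v, rfl⟩ := qm_surj G a
    obtain ⟨z, hz, _⟩ := hR v
    exact ⟨⟨z, hz.1⟩, (nbh_eq _ _ _).mp hz.2⟩
  let e : R ≃ Qt G := Equiv.ofBijective _ ⟨hinj, hsur⟩
  have he : ∀ x : R, e x = qm G (x : V) := fun x => rfl
  have hadj : ∀ x y : R, (G.induce R).Adj x y ↔ EE G (e x) (e y) := by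
    intro x y
    rw [he, he, ← adj_iff]
    rfl
  have : Finite (G.induce R ≃g G.induce R) :=
    Finite.of_injective (fun f => f.toEquiv) (fun f g h => by
      ext x
      have := congrFun (congrArg DFunLike.coe h) x
      exact congrArg Subtype.val this)
  rw [← Nat.card_eq_fintype_card]
  let F : AG G P → (G.induce R ≃g G.induce R) := fun γ =>
    ⟨(e.trans (γ : Equiv.Perm (Qt G))).trans e.symm, by
      intro x y
      rw [hadj, hadj]
      show EE G (e (e.symm ((γ : Equiv.Perm (Qt G)) (e x))))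
        (e (e.symm ((γ : Equiv.Perm (Qt G)) (e y)))) ↔ _
      rw [Equiv.apply_symm_apply, Equiv.apply_symm_apply]
      exact ((mem_AG _ _ _).mp γ.2).1 _ _⟩
  have hF : ∀ (γ : AG G P) (x : R), F γ x = e.symm ((γ : Equiv.Perm (Qt G)) (e x)) :=
    fun γ x => rfl
  apply Nat.card_le_card_of_injective F
  intro γ β h
  apply Subtype.ext
  ext a
  obtain ⟨x, rfl⟩ := e.surjective a
  have h1 : F γ x = F β x := by rw [h]
  rw [hF, hF] at h1
  rw [e.symm.injective h1]

/-- footprint type bound -/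
theorem foot_bound {G H : SimpleGraph V} {π : V → Equiv.Perm V} (hH : Hypo G H π)
    (hN : NonIso G H) (h8 : 8 ≤ Fintype.card V) (p k : ℕ) (hp : 1 ≤ p)
    (he : 1 ≤ ∑ a ∈ PP G p k, (wt G a - p)) (R : Set V) (hR : Rep G R) :
    k ^ (∑ a ∈ PP G p k, (wt G a - p)) ≤
      (2 * Nat.card (G.induce R ≃g G.induce R)) ^ (k - 1) := by
  obtain ⟨a, ha, hpos⟩ : ∃ a ∈ PP G p k, wt G a - p ≠ 0 := by
    apply exists_ne_zero_of_sum_ne_zero
    omega
  obtain ⟨v0, rfl⟩ := qm_surj G a
  rw [mem_PP, wt_qm] at ha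
  rw [wt_qm] at hpos
  obtain ⟨w', q', T, hD, hne, hr⟩ := exists_dk hH hN h8 p k hp v0 (by omega) (by omega)
  have h1 := hD.foot_bound hne he k (by omega)
    (fun a ha => ((mem_PP _ _ _ _).mp ha).2) hr
  refine h1.trans (Nat.pow_le_pow_left ?_ _)
  exact Nat.mul_le_mul_left _ (card_AG_le G _ R hR)

/-- downward closure of the set of the sizes -/
theorem sizes_down {G H : SimpleGraph V} {π : V → Equiv.Perm V} (hH : Hypo G H π)
    (hN : NonIso G H) (h8 : 8 ≤ Fintype.card V) (a : Qt G) (t : ℕ) (ht : 1 ≤ t)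
    (hta : t ≤ wt G a) : ∃ b, wt G b = t := by
  obtain ⟨d, hd⟩ := Nat.exists_eq_add_of_le hta
  clear hta
  induction d generalizing a with
  | zero => exact ⟨a, by omega⟩
  | succ d ih =>
    have h1 := lov_bound hH hN h8 (t + d) (by omega)
    have h2 : 0 < (univ.filter (fun a => wt G a = t + d + 1)).card :=
      card_pos.mpr ⟨a, mem_filter.mpr ⟨mem_univ _, by omega⟩⟩
    obtain ⟨b, hb⟩ := card_pos.mp (lt_of_lt_of_le h2 h1)
    exact ih b (mem_filter.mp hb).2

theorem gauss_bound {ι : Type} (w : ι → ℕ) : ∀ (m : ℕ) (s : Finset ι), s.card = m →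
    (∀ i ∈ s, ∀ t, 1 ≤ t → t ≤ w i → ∃ j ∈ s, w j = t) →
    2 * ∑ i ∈ s, w i ≤ m * (m + 1) := by
  intro m
  induction m with
  | zero =>
    intro s hs _
    rw [card_eq_zero] at hs
    rw [hs, sum_empty]
    omega
  | succ m ih =>
    intro s hs hd
    obtain ⟨i0, hi0, hmax⟩ := exists_max_image s w (card_pos.mp (by omega))
    have h1 := ih (s.erase i0) (by rw [card_erase_of_mem hi0]; omega) (by
      intro i hi t ht hti
      have hi' := mem_erase.mp hi
      obtain ⟨j, hj, hjt⟩ := hd i hi'.2 t ht hti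
      by_cases hji : j = i0
      · refine ⟨i, hi, ?_⟩
        have := hmax i hi'.2
        rw [hji] at hjt
        omega
      · exact ⟨j, mem_erase.mpr ⟨hji, hj⟩, hjt⟩)
    have h2 : w i0 ≤ s.card := by
      have h3 : Finset.Icc 1 (w i0) ⊆ s.image w := by
        intro t ht
        rw [mem_Icc] at ht
        obtain ⟨j, hj, hjt⟩ := hd i0 hi0 t ht.1 ht.2
        exact mem_image.mpr ⟨j, hj, hjt⟩
      have h4 := card_le_card h3
      rw [Nat.card_Icc] at h4
      have h5 : (s.image w).card ≤ s.card := card_image_le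
      omega
    rw [← add_sum_erase s w hi0]
    nlinarith

theorem sum_wt (G : SimpleGraph V) : ∑ a, wt G a = Fintype.card V := by
  have h2 := card_eq_sum_card_fiberwise (f := qm G) (s := univ) (t := univ)
    (fun x _ => mem_univ _)
  rw [card_univ] at h2
  rw [h2]
  rfl

theorem wt_pos (G : SimpleGraph V) (a : Qt G) : 1 ≤ wt G a := by
  obtain ⟨x, rfl⟩ := qm_surj G a
  rw [wt_qm]; omega

/-- few distinct neighbourhoods -/
theorem few_bound {G H : SimpleGraph V} {π : V → Equiv.Perm V} (hH : Hypo G H π)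
    (hN : NonIso G H) (h8 : 8 ≤ Fintype.card V) :
    2 * Fintype.card V ≤ Fintype.card (Qt G) * (Fintype.card (Qt G) + 1) := by
  rw [← sum_wt G]
  apply gauss_bound (wt G) _ univ card_univ
  intro a _ t ht hta
  obtain ⟨b, hb⟩ := sizes_down hH hN h8 a t ht hta
  exact ⟨b, mem_univ _, hb⟩

theorem sum_excess (G : SimpleGraph V) :
    ∑ a : Qt G, (wt G a - 1) + Fintype.card (Qt G) = Fintype.card V := by
  rw [← sum_wt G, ← card_univ, card_eq_sum_ones, ← sum_add_distrib]
  apply sum_congr rfl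
  intro a _
  have := wt_pos G a
  omega

/-- the excess is large if there is a large class -/
theorem excess_ge {G H : SimpleGraph V} {π : V → Equiv.Perm V} (hH : Hypo G H π)
    (hN : NonIso G H) (h8 : 8 ≤ Fintype.card V) (a : Qt G) :
    wt G a * (wt G a - 1) ≤ 2 * ∑ b : Qt G, (wt G b - 1) := by
  set M := wt G a with hM
  have h1 : ∀ t ∈ range M, ∃ b : Qt G, wt G b = t + 1 := by
    intro t ht
    rw [mem_range] at ht
    exact sizes_down hH hN h8 a (t + 1) (by omega) (by omega)
  have : Nonempty (Qt G) := ⟨a⟩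
  choose! f hf using h1
  have h2 : ∑ t ∈ range M, (wt G (f t) - 1) ≤ ∑ b : Qt G, (wt G b - 1) := by
    rw [← sum_image (f := fun b => wt G b - 1) (g := f) (s := range M)]
    · exact sum_le_sum_of_subset (subset_univ _)
    · intro x hx y hy hxy
      have e1 := hf x hx
      have e2 := hf y hy
      rw [hxy] at e1
      omega
  have h3 : ∑ t ∈ range M, (wt G (f t) - 1) = ∑ t ∈ range M, t := by
    apply sum_congr rfl
    intro t ht
    rw [hf t ht]
    omega
  rw [h3] at h2
  have h4 := Finset.sum_range_id_mul_two M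
  rw [← h4]
  omega

theorem PP_one (G : SimpleGraph V) (M : ℕ) (hM : ∀ a, wt G a ≤ M) : PP G 1 M = univ := by
  ext a
  rw [mem_PP]
  have h1 := wt_pos G a
  have h2 := hM a
  constructor
  · intro _; exact mem_univ _
  · intro _; omega

/-- the form with the largest class -/
theorem max_bound {G H : SimpleGraph V} {π : V → Equiv.Perm V} (hH : Hypo G H π)
    (hN : NonIso G H) (h8 : 8 ≤ Fintype.card V) (R : Set V) (hR : Rep G R)
    (M : ℕ) (hM : ∀ a, wt G a ≤ M) (h1 : 1 ≤ ∑ b : Qt G, (wt G b - 1)) :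
    M ^ (∑ b : Qt G, (wt G b - 1)) ≤ (2 * Nat.card (G.induce R ≃g G.induce R)) ^ (M - 1) := by
  have h2 := foot_bound hH hN h8 1 M le_rfl (by rw [PP_one G M hM]; exact h1) R hR
  rw [PP_one G M hM] at h2
  exact h2

theorem card_aut_pos (G : SimpleGraph V) (R : Set V) :
    1 ≤ Nat.card (G.induce R ≃g G.induce R) := by
  have : Finite (G.induce R ≃g G.induce R) :=
    Finite.of_injective (fun f => f.toEquiv) (fun f g h => by
      ext x
      have := congrFun (congrArg DFunLike.coe h) x
      exact congrArg Subtype.val this)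
  have : Nonempty (G.induce R ≃g G.induce R) := ⟨RelIso.refl _⟩
  exact Nat.card_pos

theorem pow_self_mono (a b : ℕ) (h1 : 1 ≤ a) (h : a ≤ b) : a ^ a ≤ b ^ b :=
  (Nat.pow_le_pow_left h a).trans (Nat.pow_le_pow_right (by omega) h)

/-- the size of the largest class -/
theorem big_bound {G H : SimpleGraph V} {π : V → Equiv.Perm V} (hH : Hypo G H π)
    (hN : NonIso G H) (h8 : 8 ≤ Fintype.card V) (R : Set V) (hR : Rep G R) (a : Qt G) :
    wt G a ^ wt G a ≤ 4 * Nat.card (G.induce R ≃g G.induce R) ^ 2 := by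
  set g := Nat.card (G.induce R ≃g G.induce R) with hg
  have hg1 : 1 ≤ g := card_aut_pos G R
  obtain ⟨b, _, hb⟩ := exists_max_image univ (wt G) ⟨a, mem_univ a⟩
  refine (pow_self_mono _ (wt G b) (wt_pos G a) (hb a (mem_univ _))).trans ?_
  set M := wt G b with hM
  have hM1 : 1 ≤ M := wt_pos G b
  rcases Nat.eq_or_lt_of_le hM1 with h1 | h1
  · rw [← h1]
    nlinarith
  · have he := excess_ge hH hN h8 b
    rw [← hM] at he
    set e := ∑ c : Qt G, (wt G c - 1) with hedef
    obtain ⟨i, hi⟩ : ∃ i, M = i + 2 := ⟨M - 2, by omega⟩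
    have he1 : 1 ≤ e := by
      rw [hi] at he
      have e0 : i + 2 - 1 = i + 1 := by omega
      rw [e0] at he
      nlinarith
    have h2 := max_bound hH hN h8 R hR M (fun c => hb c (mem_univ _)) he1
    rw [← hedef, ← hg] at h2
    have h3 : (M ^ M) ^ (M - 1) ≤ (4 * g ^ 2) ^ (M - 1) := by
      calc (M ^ M) ^ (M - 1) = M ^ (M * (M - 1)) := (pow_mul _ _ _).symm
        _ ≤ M ^ (2 * e) := Nat.pow_le_pow_right hM1 he
        _ = (M ^ e) ^ 2 := by rw [← pow_mul, mul_comm]
        _ ≤ ((2 * g) ^ (M - 1)) ^ 2 := Nat.pow_le_pow_left h2 2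
        _ = (4 * g ^ 2) ^ (M - 1) := by
            rw [← pow_mul, mul_comm (M - 1) 2, pow_mul]
            congr 1
            ring
    exact (Nat.pow_le_pow_iff_left (by omega)).mp h3

/-- the excess in terms of the logarithm of the order of the group -/
theorem log_bound {G H : SimpleGraph V} {π : V → Equiv.Perm V} (hH : Hypo G H π)
    (hN : NonIso G H) (h8 : 8 ≤ Fintype.card V) (R : Set V) (hR : Rep G R) :
    ((∑ b : Qt G, (wt G b - 1) : ℕ) : ℝ) <
      2 * Real.logb 2 (2 * (Nat.card (G.induce R ≃g G.induce R) : ℝ)) ^ 2 := by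
  set g := Nat.card (G.induce R ≃g G.induce R) with hg
  have hg1 : 1 ≤ g := card_aut_pos G R
  have hgr : (1 : ℝ) ≤ (g : ℝ) := by exact_mod_cast hg1
  set L := Real.logb 2 (2 * (g : ℝ)) with hL
  have hL1 : 1 ≤ L := by
    rw [hL, Real.le_logb_iff_rpow_le (by norm_num) (by linarith), Real.rpow_one]
    linarith
  set e := ∑ c : Qt G, (wt G c - 1) with hedef
  rcases Nat.eq_zero_or_pos e with h0 | h0
  · rw [h0]
    push_cast
    positivity
  have hne : (univ : Finset (Qt G)).Nonempty := by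
    obtain ⟨a, _, _⟩ := exists_ne_zero_of_sum_ne_zero (by omega : ∑ c : Qt G, (wt G c - 1) ≠ 0)
    exact ⟨a, mem_univ _⟩
  obtain ⟨b, _, hb⟩ := exists_max_image univ (wt G) hne
  set M := wt G b with hM
  have hM2 : 2 ≤ M := by
    obtain ⟨a, _, ha⟩ := exists_ne_zero_of_sum_ne_zero (by omega : ∑ c : Qt G, (wt G c - 1) ≠ 0)
    have := hb a (mem_univ _)
    omega
  have hMr : (2 : ℝ) ≤ (M : ℝ) := by exact_mod_cast hM2
  have h2 := max_bound hH hN h8 R hR M (fun c => hb c (mem_univ _)) h0
  rw [← hedef, ← hg] at h2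
  have h3 := big_bound hH hN h8 R hR b
  rw [← hM, ← hg] at h3
  set x := Real.logb 2 (M : ℝ) with hx
  have hx1 : 1 ≤ x := by
    rw [hx, Real.le_logb_iff_rpow_le (by norm_num) (by linarith), Real.rpow_one]
    exact hMr
  -- take logarithms
  have h2r : (M : ℝ) ^ e ≤ (2 * (g : ℝ)) ^ (M - 1) := by exact_mod_cast h2
  have h3r : (M : ℝ) ^ M ≤ (2 * (g : ℝ)) ^ 2 := by
    have : (2 * g) ^ 2 = 4 * g ^ 2 := by ring
    rw [← this] at h3
    exact_mod_cast h3
  have h4 : (e : ℝ) * x ≤ ((M : ℝ) - 1) * L := by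
    have h5 := Real.logb_le_logb_of_le (b := 2) (by norm_num) (by positivity) h2r
    rw [Real.logb_pow, Real.logb_pow, ← hx, ← hL, Nat.cast_sub (by omega : 1 ≤ M)] at h5
    push_cast at h5
    exact h5
  have h5 : (M : ℝ) * x ≤ 2 * L := by
    have h5 := Real.logb_le_logb_of_le (b := 2) (by norm_num) (by positivity) h3r
    rw [Real.logb_pow, Real.logb_pow, ← hx, ← hL] at h5
    push_cast at h5
    exact h5
  -- `e ≤ e x ≤ (M - 1) L < M L ≤ M x L ≤ 2 L^2`
  have h6 : (e : ℝ) ≤ e * x := by nlinarith [(Nat.cast_nonneg e : (0 : ℝ) ≤ (e : ℝ))]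
  have h7 : (M : ℝ) * L ≤ (M : ℝ) * x * L := by nlinarith
  have h8 : (M : ℝ) * x * L ≤ 2 * L * L := by nlinarith
  nlinarith

end Pool.Agent.R586.TW
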