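import Pool.Agent.H234RC.T1

set_option autoImplicit false
set_option linter.unusedSectionVars false

/-!
The number of the twins of a vertex is reconstructible.
-/

namespace Pool.Agent.R586.TW

open Finset Classical
open Pool.Agent.H234RC (Hypo NonIso Reconstructible exists_hypo)

variable {V : Type} [Fintype V]

/-- the vertices which distinguish `x` and `y` -/
noncomputable def Ds (G : SimpleGraph V) (x y : V) : Finset V :=
  univ.filter (fun z => z ≠ x ∧ z ≠ y ∧ ¬ (G.Adj x z ↔ G.Adj y z))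

/-- the ordered nonadjacent pairs distinguished by exactly `j` vertices -/
noncomputable def tp (G : SimpleGraph V) (j : ℕ) : Finset (V × V) :=
  univ.filter (fun e => e.1 ≠ e.2 ∧ ¬ G.Adj e.1 e.2 ∧ (Ds G e.1 e.2).card = j)

/-- the same in a card -/
noncomputable def tc (G : SimpleGraph V) (v : V) (j : ℕ) : Finset (V × V) :=
  univ.filter (fun e => e.1 ≠ v ∧ e.2 ≠ v ∧ e.1 ≠ e.2 ∧ ¬ G.Adj e.1 e.2 ∧
    ((Ds G e.1 e.2).erase v).card = j)

theorem mem_tp (G : SimpleGraph V) (j : ℕ) (e : V × V) :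
    e ∈ tp G j ↔ e.1 ≠ e.2 ∧ ¬ G.Adj e.1 e.2 ∧ (Ds G e.1 e.2).card = j := by
  unfold tp
  rw [mem_filter]
  exact ⟨fun h => h.2, fun h => ⟨mem_univ _, h⟩⟩

theorem mem_tc (G : SimpleGraph V) (v : V) (j : ℕ) (e : V × V) :
    e ∈ tc G v j ↔ e.1 ≠ v ∧ e.2 ≠ v ∧ e.1 ≠ e.2 ∧ ¬ G.Adj e.1 e.2 ∧
    ((Ds G e.1 e.2).erase v).card = j := by
  unfold tc
  rw [mem_filter]
  exact ⟨fun h => h.2, fun h => ⟨mem_univ _, h⟩⟩

theorem mem_Ds (G : SimpleGraph V) (x y z : V) :
    z ∈ Ds G x y ↔ z ≠ x ∧ z ≠ y ∧ ¬ (G.Adj x z ↔ G.Adj y z) := by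
  unfold Ds
  rw [mem_filter]
  exact ⟨fun h => h.2, fun h => ⟨mem_univ _, h⟩⟩

theorem Ds_card_le (G : SimpleGraph V) (x y : V) (h : x ≠ y) :
    (Ds G x y).card + 2 ≤ Fintype.card V := by
  have h1 : Ds G x y ⊆ (univ.erase x).erase y := by
    intro z hz
    rw [mem_Ds] at hz
    exact mem_erase.mpr ⟨hz.2.1, mem_erase.mpr ⟨hz.1, mem_univ _⟩⟩
  have h2 := card_le_card h1
  rw [card_erase_of_mem (mem_erase.mpr ⟨h.symm, mem_univ _⟩), card_erase_of_mem (mem_univ _),
    card_univ] at h2
  have h3 : 1 < Fintype.card V := Fintype.one_lt_card_iff.mpr ⟨x, y, h⟩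
  omega

theorem pt_count (D : Finset V) (x y : V) (hxy : x ≠ y) (hx : x ∉ D) (hy : y ∉ D) (j : ℕ) :
    (((univ.filter (fun v => x ≠ v ∧ y ≠ v ∧ (D.erase v).card = j)).card : ℕ) : ℤ) =
      (if D.card = j then ((Fintype.card V : ℤ) - 2 - j) else 0) +
      (if D.card = j + 1 then ((j : ℤ) + 1) else 0) := by
  have hDc : D.card + 2 ≤ Fintype.card V := by
    have h1 : insert x (insert y D) ⊆ univ := subset_univ _
    have h2 := card_le_card h1
    rw [card_insert_of_notMem, card_insert_of_notMem hy, card_univ] at h2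
    · omega
    · rw [mem_insert]
      rintro (h | h)
      · exact hxy h
      · exact hx h
  have hsplit : univ.filter (fun v => x ≠ v ∧ y ≠ v ∧ (D.erase v).card = j) =
      (if D.card = j then ((univ.erase x).erase y) \ D else ∅) ∪
      (if D.card = j + 1 then D else ∅) := by
    ext v
    rw [mem_filter, mem_union]
    by_cases hv : v ∈ D
    · have e1 : (D.erase v).card = D.card - 1 := card_erase_of_mem hv
      have e2 : 0 < D.card := card_pos.mpr ⟨v, hv⟩
      have e3 : x ≠ v := fun h => hx (h ▸ hv)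
      have e4 : y ≠ v := fun h => hy (h ▸ hv)
      constructor
      · rintro ⟨_, _, _, h⟩
        right
        rw [if_pos (by omega)]
        exact hv
      · intro h
        refine ⟨mem_univ _, e3, e4, ?_⟩
        rcases h with h | h
        · split_ifs at h with h1
          · exact absurd hv (mem_sdiff.mp h).2
          · exact absurd h (notMem_empty _)
        · split_ifs at h with h1
          · omega
          · exact absurd h (notMem_empty _)
    · have e1 : D.erase v = D := erase_eq_of_notMem hv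
      rw [e1]
      constructor
      · rintro ⟨_, h1, h2, h3⟩
        left
        rw [if_pos h3]
        exact mem_sdiff.mpr ⟨mem_erase.mpr ⟨h2.symm, mem_erase.mpr ⟨h1.symm, mem_univ _⟩⟩, hv⟩
      · rintro (h | h)
        · split_ifs at h with h1
          · have h2 := mem_erase.mp (mem_sdiff.mp h).1
            have h3 := mem_erase.mp h2.2
            exact ⟨mem_univ _, h3.1.symm, h2.1.symm, h1⟩
          · exact absurd h (notMem_empty _)
        · split_ifs at h with h1
          · exact absurd h hv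
          · exact absurd h (notMem_empty _)
  rw [hsplit]
  by_cases h1 : D.card = j
  · have h2 : ¬ D.card = j + 1 := by omega
    rw [if_pos h1, if_neg h2, if_pos h1, if_neg h2, union_empty, add_zero,
      card_sdiff_of_subset, card_erase_of_mem, card_erase_of_mem (mem_univ _), card_univ, h1]
    · omega
    · exact mem_erase.mpr ⟨hxy.symm, mem_univ _⟩
    · intro z hz
      exact mem_erase.mpr ⟨fun h => hy (h ▸ hz), mem_erase.mpr ⟨fun h => hx (h ▸ hz), mem_univ _⟩⟩
  · rw [if_neg h1, if_neg h1, empty_union, zero_add]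
    by_cases h2 : D.card = j + 1
    · rw [if_pos h2, if_pos h2, h2]
      push_cast
      ring
    · rw [if_neg h2, if_neg h2, card_empty]
      simp

theorem sum_tc (G : SimpleGraph V) (j : ℕ) :
    ∑ v, ((tc G v j).card : ℤ) =
      ((Fintype.card V : ℤ) - 2 - j) * (tp G j).card + ((j : ℤ) + 1) * (tp G (j + 1)).card := by
  set B : Finset (V × V) := univ.filter (fun e => e.1 ≠ e.2 ∧ ¬ G.Adj e.1 e.2) with hB
  have h1 : ∀ v, ((tc G v j).card : ℤ) =
      ∑ e ∈ B, if e.1 ≠ v ∧ e.2 ≠ v ∧ ((Ds G e.1 e.2).erase v).card = j then (1 : ℤ) else 0 := by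
    intro v
    rw [← sum_filter, sum_const, nsmul_eq_mul, mul_one]
    congr 2
    ext e
    rw [mem_tc, mem_filter, hB, mem_filter]
    constructor
    · rintro ⟨a, b, c, d, e⟩
      exact ⟨⟨mem_univ _, c, d⟩, a, b, e⟩
    · rintro ⟨⟨_, c, d⟩, a, b, e⟩
      exact ⟨a, b, c, d, e⟩
  have h2 : ∀ e ∈ B, ∑ v, (if e.1 ≠ v ∧ e.2 ≠ v ∧ ((Ds G e.1 e.2).erase v).card = j
      then (1 : ℤ) else 0) =
      (if (Ds G e.1 e.2).card = j then ((Fintype.card V : ℤ) - 2 - j) else 0) +
      (if (Ds G e.1 e.2).card = j + 1 then ((j : ℤ) + 1) else 0) := by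
    intro e he
    rw [hB, mem_filter] at he
    rw [← sum_filter, sum_const, nsmul_eq_mul, mul_one]
    exact pt_count (Ds G e.1 e.2) e.1 e.2 he.2.1 (fun h => ((mem_Ds _ _ _ _).mp h).1 rfl)
      (fun h => ((mem_Ds _ _ _ _).mp h).2.1 rfl) j
  have h3 : ∀ i, ((tp G i).card : ℤ) = ∑ e ∈ B, if (Ds G e.1 e.2).card = i then (1 : ℤ) else 0 := by
    intro i
    rw [← sum_filter, sum_const, nsmul_eq_mul, mul_one]
    congr 2
    ext e
    rw [mem_tp, mem_filter, hB, mem_filter]
    constructor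
    · rintro ⟨a, b, c⟩
      exact ⟨⟨mem_univ _, a, b⟩, c⟩
    · rintro ⟨⟨_, a, b⟩, c⟩
      exact ⟨a, b, c⟩
  rw [sum_congr rfl (fun v _ => h1 v), sum_comm, sum_congr rfl h2, sum_add_distrib, h3, h3,
    mul_sum, mul_sum]
  congr 1
  · apply sum_congr rfl
    intro e _
    split_ifs <;> simp
  · apply sum_congr rfl
    intro e _
    split_ifs <;> simp

theorem tc_hypo {G H : SimpleGraph V} {π : V → Equiv.Perm V} (hH : Hypo G H π) (v : V) (j : ℕ) :
    (tc G v j).card = (tc H v j).card := by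
  have hne : ∀ x, π v x ≠ v ↔ x ≠ v := by
    intro x
    rw [not_iff_not]
    constructor
    · intro h
      apply (π v).injective
      rw [h, hH.fix]
    · intro h
      rw [h, hH.fix]
  have hD : ∀ x y, x ≠ v → y ≠ v →
      ((Ds H (π v x) (π v y)).erase v).card = ((Ds G x y).erase v).card := by
    intro x y hx hy
    symm
    apply card_bij (fun z _ => π v z)
    · intro z hz
      rw [mem_erase, mem_Ds] at hz
      rw [mem_erase, mem_Ds]
      refine ⟨(hne z).mpr hz.1, (π v).injective.ne hz.2.1, (π v).injective.ne hz.2.2.1, ?_⟩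
      rw [hH.adj v x z hx hz.1, hH.adj v y z hy hz.1]
      exact hz.2.2.2
    · intro z _ z' _ h
      exact (π v).injective h
    · intro z hz
      obtain ⟨z', rfl⟩ := (π v).surjective z
      rw [mem_erase, mem_Ds] at hz
      have hz1 := (hne z').mp hz.1
      refine ⟨z', ?_, rfl⟩
      rw [mem_erase, mem_Ds]
      refine ⟨hz1, fun h => hz.2.1 (by rw [h]), fun h => hz.2.2.1 (by rw [h]), ?_⟩
      have := hz.2.2.2
      rw [hH.adj v x z' hx hz1, hH.adj v y z' hy hz1] at this
      exact this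
  apply card_bij (fun e _ => (π v e.1, π v e.2))
  · rintro ⟨x, y⟩ he
    rw [mem_tc] at he ⊢
    obtain ⟨h1, h2, h3, h4, h5⟩ := he
    refine ⟨(hne x).mpr h1, (hne y).mpr h2, (π v).injective.ne h3, ?_, ?_⟩
    · rw [hH.adj v x y h1 h2]
      exact h4
    · rw [hD x y h1 h2]
      exact h5
  · rintro ⟨x, y⟩ _ ⟨x', y'⟩ _ h
    rw [Prod.mk.injEq] at h ⊢
    exact ⟨(π v).injective h.1, (π v).injective h.2⟩
  · rintro ⟨x', y'⟩ he
    obtain ⟨x, rfl⟩ := (π v).surjective x'
    obtain ⟨y, rfl⟩ := (π v).surjective y'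
    rw [mem_tc] at he
    obtain ⟨h1, h2, h3, h4, h5⟩ := he
    have h1' := (hne x).mp h1
    have h2' := (hne y).mp h2
    refine ⟨(x, y), ?_, rfl⟩
    rw [mem_tc]
    refine ⟨h1', h2', fun h => h3 (by simp only at h; rw [h]), ?_, ?_⟩
    · rw [← hH.adj v x y h1' h2']
      exact h4
    · rw [← hD x y h1' h2']
      exact h5

theorem even_tp (G : SimpleGraph V) (j : ℕ) : Even (tp G j).card := by
  have h1 : ∑ e ∈ tp G j, (1 : ZMod 2) = 0 := by
    apply sum_involution (fun e _ => (e.2, e.1))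
    · intro e _
      decide
    · intro e he _ h
      rw [mem_tp] at he
      exact he.1 (congrArg Prod.fst h).symm
    · intro e he
      rw [mem_tp] at he ⊢
      refine ⟨he.1.symm, fun h => he.2.1 h.symm, ?_⟩
      rw [← he.2.2]
      congr 1
      ext z
      rw [mem_Ds, mem_Ds]
      tauto
    · intro e _
      rfl
  rw [sum_const, nsmul_eq_mul, mul_one] at h1
  exact (ZMod.natCast_eq_zero_iff_even).mp h1

theorem tp_zero_eq {G H : SimpleGraph V} {π : V → Equiv.Perm V} (hH : Hypo G H π)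
    (h8 : 8 ≤ Fintype.card V) : (tp G 0).card = (tp H 0).card := by
  set n := Fintype.card V with hn
  set δ : ℕ → ℤ := fun j => ((tp G j).card : ℤ) - ((tp H j).card : ℤ) with hδ
  have hrec : ∀ j, ((n : ℤ) - 2 - j) * δ j + ((j : ℤ) + 1) * δ (j + 1) = 0 := by
    intro j
    have h1 := sum_tc G j
    have h2 := sum_tc H j
    have h3 : ∑ v, ((tc G v j).card : ℤ) = ∑ v, ((tc H v j).card : ℤ) :=
      sum_congr rfl (fun v _ => by rw [tc_hypo hH v j])
    rw [h1, h2] at h3
    simp only [hδ]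
    linarith
  have hform : ∀ j, j ≤ n - 2 → δ j = (-1) ^ j * ((n - 2).choose j : ℤ) * δ 0 := by
    intro j
    induction j with
    | zero => intro _; simp
    | succ j ih =>
      intro hj
      have h1 := ih (by omega)
      have h2 := hrec j
      have h3 := Nat.choose_succ_right_eq (n - 2) j
      have h4 := congrArg (fun t : ℕ => (t : ℤ)) h3
      simp only [Nat.cast_mul, Nat.cast_add, Nat.cast_one] at h4
      rw [Nat.cast_sub (by omega : j ≤ n - 2), Nat.cast_sub (by omega : 2 ≤ n)] at h4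
      have h5 : ((j : ℤ) + 1) ≠ 0 := by positivity
      apply mul_left_cancel₀ h5
      rw [h1] at h2
      have h6 : ((j : ℤ) + 1) * δ (j + 1) =
          - (((n : ℤ) - 2 - j) * ((-1) ^ j * ((n - 2).choose j : ℤ) * δ 0)) := by linarith
      rw [h6, pow_succ]
      have h7 : (((n - 2).choose (j + 1) : ℕ) : ℤ) * ((j : ℤ) + 1) =
          ((n - 2).choose j : ℤ) * ((n : ℤ) - 2 - j) := by
        rw [h4]
        push_cast
        ring
      linear_combination (-1) ^ j * δ 0 * h7
  have habs : ∑ j ∈ range (n - 2 + 1), |δ j| = 2 ^ (n - 2) * |δ 0| := by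
    have h1 : ∀ j ∈ range (n - 2 + 1), |δ j| = ((n - 2).choose j : ℤ) * |δ 0| := by
      intro j hj
      rw [mem_range] at hj
      rw [hform j (by omega), abs_mul, abs_mul, abs_pow, abs_neg, abs_one, one_pow, one_mul,
        Nat.abs_cast]
    rw [sum_congr rfl h1, ← sum_mul]
    congr 1
    have h2 := Nat.sum_range_choose (n - 2)
    exact_mod_cast h2
  have hT : ∀ K : SimpleGraph V, ∑ j ∈ range (n - 2 + 1), ((tp K j).card : ℤ) ≤ n * (n - 1) := by
    intro K
    have h1 : ∑ j ∈ range (n - 2 + 1), (tp K j).card =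
        ((range (n - 2 + 1)).biUnion (fun j => tp K j)).card := by
      rw [card_biUnion]
      intro i _ j _ hij
      rw [Function.onFun, Finset.disjoint_left]
      intro e h1 h2
      rw [mem_tp] at h1 h2
      exact hij (h1.2.2.symm.trans h2.2.2)
    have h2 : ((range (n - 2 + 1)).biUnion (fun j => tp K j)) ⊆ (univ : Finset V).offDiag := by
      intro e he
      obtain ⟨j, _, h3⟩ := mem_biUnion.mp he
      rw [mem_tp] at h3
      rw [mem_offDiag]
      exact ⟨mem_univ _, mem_univ _, h3.1⟩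
    have h3 := card_le_card h2
    rw [offDiag_card, card_univ, ← hn, ← h1] at h3
    have h4 : n * n - n = n * (n - 1) := by
      rw [Nat.mul_sub, mul_one]
    rw [h4] at h3
    have h5 : ((∑ j ∈ range (n - 2 + 1), (tp K j).card : ℕ) : ℤ) ≤ ((n * (n - 1) : ℕ) : ℤ) := by
      exact_mod_cast h3
    rw [Nat.cast_mul, Nat.cast_sub (by omega : 1 ≤ n)] at h5
    push_cast at h5
    exact h5
  have hle : ∑ j ∈ range (n - 2 + 1), |δ j| ≤ 2 * ((n : ℤ) * (n - 1)) := by
    calc ∑ j ∈ range (n - 2 + 1), |δ j|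
        ≤ ∑ j ∈ range (n - 2 + 1), (((tp G j).card : ℤ) + ((tp H j).card : ℤ)) := by
          apply sum_le_sum
          intro j _
          simp only [hδ]
          rw [abs_le]
          constructor <;> omega
      _ ≤ _ := by
          rw [sum_add_distrib]
          have h1 := hT G
          have h2 := hT H
          linarith
  rw [habs] at hle
  by_contra hne
  have hδ0 : δ 0 ≠ 0 := by
    intro h
    apply hne
    simp only [hδ] at h
    omega
  have h2 : 2 ≤ |δ 0| := by
    obtain ⟨a, ha⟩ := even_tp G 0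
    obtain ⟨b, hb⟩ := even_tp H 0
    have h3 : δ 0 = 2 * ((a : ℤ) - b) := by
      simp only [hδ, ha, hb]
      push_cast
      ring
    rw [h3, abs_mul]
    have h4 : (a : ℤ) - b ≠ 0 := by
      intro h
      apply hδ0
      rw [h3, h, mul_zero]
    have h5 : 1 ≤ |(a : ℤ) - b| := Int.one_le_abs h4
    have h6 : |(2 : ℤ)| = 2 := by norm_num
    rw [h6]
    linarith
  have hpow : ∀ m : ℕ, 8 ≤ m → m * (m - 1) < 2 ^ (m - 2) := by
    intro m hm
    induction m, hm using Nat.le_induction with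
    | base => norm_num
    | succ m hm ih =>
      have e1 : m + 1 - 2 = (m - 2) + 1 := by omega
      rw [e1, pow_succ]
      have e2 : m + 1 - 1 = m := by omega
      rw [e2]
      obtain ⟨i, rfl⟩ : ∃ i, m = i + 8 := ⟨m - 8, by omega⟩
      have e3 : i + 8 - 1 = i + 7 := by omega
      rw [e3] at ih
      nlinarith
  have h3 : ((n : ℤ) * (n - 1)) < 2 ^ (n - 2) := by
    have h4 := hpow n h8
    have h5 : ((n * (n - 1) : ℕ) : ℤ) < ((2 ^ (n - 2) : ℕ) : ℤ) := by exact_mod_cast h4
    rw [Nat.cast_mul, Nat.cast_sub (by omega : 1 ≤ n)] at h5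
    push_cast at h5
    exact h5
  have h4 : (2 : ℤ) ^ (n - 2) * 2 ≤ 2 ^ (n - 2) * |δ 0| :=
    mul_le_mul_of_nonneg_left h2 (by positivity)
  linarith

/-- the other vertices with the same neighbours as `v` -/
noncomputable def tw (G : SimpleGraph V) (v : V) : Finset V :=
  univ.filter (fun x => x ≠ v ∧ ∀ z, G.Adj x z ↔ G.Adj v z)

theorem mem_tw (G : SimpleGraph V) (v x : V) :
    x ∈ tw G v ↔ x ≠ v ∧ ∀ z, G.Adj x z ↔ G.Adj v z := by
  unfold tw
  rw [mem_filter]
  exact ⟨fun h => h.2, fun h => ⟨mem_univ _, h⟩⟩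

theorem Ds_empty (G : SimpleGraph V) (x y : V) (h : ¬ G.Adj x y) :
    (Ds G x y).card = 0 ↔ ∀ z, G.Adj x z ↔ G.Adj y z := by
  rw [card_eq_zero, eq_empty_iff_forall_notMem]
  constructor
  · intro h1 z
    by_cases hzx : z = x
    · rw [hzx]
      constructor
      · intro h2; exact absurd h2 (G.irrefl)
      · intro h2; exact absurd h2.symm h
    · by_cases hzy : z = y
      · rw [hzy]
        constructor
        · intro h2; exact absurd h2 h
        · intro h2; exact absurd h2 (G.irrefl)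
      · by_contra h2
        exact h1 z ((mem_Ds _ _ _ _).mpr ⟨hzx, hzy, h2⟩)
  · intro h1 z hz
    exact ((mem_Ds _ _ _ _).mp hz).2.2 (h1 z)

/-- the pairs which are distinguished only by `v` -/
noncomputable def sp (G : SimpleGraph V) (v : V) : Finset (V × V) :=
  univ.filter (fun e => e.1 ≠ v ∧ e.2 ≠ v ∧ e.1 ≠ e.2 ∧ ¬ G.Adj e.1 e.2 ∧ Ds G e.1 e.2 = {v})

theorem mem_sp (G : SimpleGraph V) (v : V) (e : V × V) :
    e ∈ sp G v ↔ e.1 ≠ v ∧ e.2 ≠ v ∧ e.1 ≠ e.2 ∧ ¬ G.Adj e.1 e.2 ∧ Ds G e.1 e.2 = {v} := by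
  unfold sp
  rw [mem_filter]
  exact ⟨fun h => h.2, fun h => ⟨mem_univ _, h⟩⟩

theorem sp_of_tw (G : SimpleGraph V) (v : V) (h : (tw G v).Nonempty) : sp G v = ∅ := by
  obtain ⟨u, hu⟩ := h
  rw [mem_tw] at hu
  rw [eq_empty_iff_forall_notMem]
  rintro ⟨x, y⟩ he
  rw [mem_sp] at he
  obtain ⟨h1, h2, h3, h4, h5⟩ := he
  simp only at h1 h2 h3 h4 h5
  have h6 : v ∈ Ds G x y := by rw [h5]; exact mem_singleton_self _
  rw [mem_Ds] at h6
  have h7 : ¬ (G.Adj x u ↔ G.Adj y u) := by
    rw [G.adj_comm x u, G.adj_comm y u, hu.2 x, hu.2 y, G.adj_comm v x, G.adj_comm v y]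
    exact h6.2.2
  have huv : ¬ G.Adj u v := by
    rw [hu.2 v]
    exact G.irrefl
  by_cases hux : u = x
  · apply h6.2.2
    have e1 : ¬ G.Adj x v := by rw [← hux]; exact huv
    have e2 : ¬ G.Adj y v := by
      intro hh
      apply h4
      rw [← hux, hu.2 y]
      exact hh.symm
    exact ⟨fun a => absurd a e1, fun a => absurd a e2⟩
  · by_cases huy : u = y
    · apply h6.2.2
      have e1 : ¬ G.Adj y v := by rw [← huy]; exact huv
      have e2 : ¬ G.Adj x v := by
        intro hh
        apply h4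
        rw [← huy, G.adj_comm, hu.2 x]
        exact hh.symm
      exact ⟨fun a => absurd a e2, fun a => absurd a e1⟩
    · have h8 : u ∈ Ds G x y := (mem_Ds _ _ _ _).mpr ⟨hux, huy, h7⟩
      rw [h5, mem_singleton] at h8
      exact hu.1 h8

theorem tc_zero (G : SimpleGraph V) (v : V) :
    (tc G v 0).card + 2 * (tw G v).card = (tp G 0).card + (sp G v).card := by
  set L := (tw G v).image (fun x => (x, v)) with hL
  set R := (tw G v).image (fun x => (v, x)) with hR
  have hLc : L.card = (tw G v).card :=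
    card_image_of_injective _ (fun a b h => (Prod.mk.injEq _ _ _ _ ▸ h).1)
  have hRc : R.card = (tw G v).card :=
    card_image_of_injective _ (fun a b h => (Prod.mk.injEq _ _ _ _ ▸ h).2)
  have hmL : ∀ e, e ∈ L ↔ e.2 = v ∧ e.1 ∈ tw G v := by
    rintro ⟨x, y⟩
    rw [hL, mem_image]
    constructor
    · rintro ⟨z, hz, h⟩
      rw [Prod.mk.injEq] at h
      exact ⟨h.2.symm, by rw [← h.1]; exact hz⟩
    · rintro ⟨h1, h2⟩
      simp only at h1 h2
      exact ⟨x, h2, by rw [h1]⟩
  have hmR : ∀ e, e ∈ R ↔ e.1 = v ∧ e.2 ∈ tw G v := by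
    rintro ⟨x, y⟩
    rw [hR, mem_image]
    constructor
    · rintro ⟨z, hz, h⟩
      rw [Prod.mk.injEq] at h
      exact ⟨h.1.symm, by rw [← h.2]; exact hz⟩
    · rintro ⟨h1, h2⟩
      simp only at h1 h2
      exact ⟨y, h2, by rw [h1]⟩
  have hdLR : Disjoint L R := by
    rw [Finset.disjoint_left]
    intro e h1 h2
    rw [hmL] at h1
    rw [hmR] at h2
    have := ((mem_tw _ _ _).mp h1.2).1
    exact this h2.1
  set Z := (tp G 0).filter (fun e => e.1 ≠ v ∧ e.2 ≠ v) with hZ
  have h1 : tp G 0 = Z ∪ (L ∪ R) := by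
    ext e
    rw [mem_union, mem_union, hZ, mem_filter, hmL, hmR, mem_tp]
    constructor
    · rintro ⟨a, b, c⟩
      by_cases h1 : e.1 = v
      · right; right
        refine ⟨h1, (mem_tw _ _ _).mpr ⟨fun h => a (h1.trans h.symm), fun z => ?_⟩⟩
        have := (Ds_empty G _ _ b).mp c z
        rw [h1] at this
        exact this.symm
      · by_cases h2 : e.2 = v
        · right; left
          refine ⟨h2, (mem_tw _ _ _).mpr ⟨h1, fun z => ?_⟩⟩
          have := (Ds_empty G _ _ b).mp c z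
          rw [h2] at this
          exact this
        · left
          exact ⟨⟨a, b, c⟩, h1, h2⟩
    · rintro (h | h | h)
      · exact h.1
      · obtain ⟨h1, h2⟩ := h
        rw [mem_tw] at h2
        have hna : ¬ G.Adj e.1 e.2 := by rw [h1, h2.2 v]; exact G.irrefl
        refine ⟨by rw [h1]; exact h2.1, hna, (Ds_empty G _ _ hna).mpr (fun z => ?_)⟩
        rw [h1]
        exact h2.2 z
      · obtain ⟨h1, h2⟩ := h
        rw [mem_tw] at h2
        have hna : ¬ G.Adj e.1 e.2 := by
          rw [h1, G.adj_comm, h2.2 v]; exact G.irrefl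
        refine ⟨by rw [h1]; exact h2.1.symm, hna, (Ds_empty G _ _ hna).mpr (fun z => ?_)⟩
        rw [h1]
        exact (h2.2 z).symm
  have h2 : Disjoint Z (L ∪ R) := by
    rw [Finset.disjoint_left]
    intro e h3 h4
    rw [hZ, mem_filter] at h3
    rcases mem_union.mp h4 with h5 | h5
    · exact h3.2.2 ((hmL e).mp h5).1
    · exact h3.2.1 ((hmR e).mp h5).1
  have h3 : tc G v 0 = Z ∪ sp G v := by
    ext e
    rw [mem_union, hZ, mem_filter, mem_tc, mem_sp, mem_tp]
    constructor
    · rintro ⟨a, b, c, d, f⟩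
      by_cases hv : v ∈ Ds G e.1 e.2
      · right
        refine ⟨a, b, c, d, ?_⟩
        rw [card_eq_zero] at f
        rw [← insert_erase hv, f]
        simp
      · left
        rw [erase_eq_of_notMem hv] at f
        exact ⟨⟨c, d, f⟩, a, b⟩
    · rintro (h | h)
      · obtain ⟨⟨c, d, f⟩, a, b⟩ := h
        refine ⟨a, b, c, d, ?_⟩
        rw [card_eq_zero] at f ⊢
        rw [f, erase_empty]
      · obtain ⟨a, b, c, d, f⟩ := h
        refine ⟨a, b, c, d, ?_⟩
        rw [f]
        simp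
  have h4 : Disjoint Z (sp G v) := by
    rw [Finset.disjoint_left]
    intro e h5 h6
    rw [hZ, mem_filter, mem_tp] at h5
    rw [mem_sp] at h6
    have h7 := h5.1.2.2
    rw [h6.2.2.2.2] at h7
    simp at h7
  rw [h1, h3, card_union_of_disjoint h2, card_union_of_disjoint h4, card_union_of_disjoint hdLR,
    hLc, hRc]
  ring

theorem tw_eq {G H : SimpleGraph V} {π : V → Equiv.Perm V} (hH : Hypo G H π)
    (h8 : 8 ≤ Fintype.card V) (v : V) : (tw G v).card = (tw H v).card := by
  have h1 := tc_zero G v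
  have h2 := tc_zero H v
  have h3 := tp_zero_eq hH h8
  have h4 := tc_hypo hH v 0
  have h5 : (tw G v).card ≠ 0 → (sp G v).card = 0 := fun h => by
    rw [sp_of_tw G v (card_pos.mp (by omega)), card_empty]
  have h6 : (tw H v).card ≠ 0 → (sp H v).card = 0 := fun h => by
    rw [sp_of_tw H v (card_pos.mp (by omega)), card_empty]
  by_cases h7 : (tw G v).card = 0
  · by_cases h8 : (tw H v).card = 0
    · omega
    · have := h6 h8
      omega
  · have h9 := h5 h7
    by_cases h8 : (tw H v).card = 0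
    · omega
    · have := h6 h8
      omega

end Pool.Agent.R586.TW
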