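import Pool.Agent.R586.TW.Abs
import Pool.Agent.R586.TW.Twin

set_option autoImplicit false
set_option linter.unusedSectionVars false

/-!
The quotient of a graph by the classes of vertices with equal neighbourhoods.
-/

namespace Pool.Agent.R586.TW

open Finset Classical
open Pool.Agent.H234RC (Hypo NonIso Reconstructible exists_hypo)

variable {V : Type} [Fintype V]

/-- the set of the neighbours -/
noncomputable def nbh (G : SimpleGraph V) (v : V) : Finset V := univ.filter (fun y => G.Adj v y)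

theorem mem_nbh (G : SimpleGraph V) (v y : V) : y ∈ nbh G v ↔ G.Adj v y := by
  unfold nbh
  rw [mem_filter]
  exact ⟨fun h => h.2, fun h => ⟨mem_univ _, h⟩⟩

/-- the set of the neighbourhoods -/
def Qt (G : SimpleGraph V) : Type := {N : Finset V // ∃ v, nbh G v = N}

noncomputable instance instQt (G : SimpleGraph V) : Fintype (Qt G) := by
  unfold Qt
  infer_instance

/-- the neighbourhood of a vertex -/
noncomputable def qm (G : SimpleGraph V) (v : V) : Qt G := ⟨nbh G v, v, rfl⟩

theorem qm_eq (G : SimpleGraph V) (x y : V) :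
    qm G x = qm G y ↔ ∀ z, G.Adj x z ↔ G.Adj y z := by
  have h : qm G x = qm G y ↔ nbh G x = nbh G y := by
    constructor
    · intro h
      exact congrArg Subtype.val h
    · intro h
      exact Subtype.ext h
  rw [h, Finset.ext_iff]
  simp only [mem_nbh]

theorem qm_surj (G : SimpleGraph V) (a : Qt G) : ∃ x, qm G x = a := by
  obtain ⟨N, v, rfl⟩ := a
  exact ⟨v, rfl⟩

/-- the adjacency of the classes -/
def EE (G : SimpleGraph V) (a b : Qt G) : Prop := ∃ x y, qm G x = a ∧ qm G y = b ∧ G.Adj x y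

theorem adj_iff (G : SimpleGraph V) (x y : V) : G.Adj x y ↔ EE G (qm G x) (qm G y) := by
  constructor
  · intro h
    exact ⟨x, y, rfl, rfl, h⟩
  · rintro ⟨x', y', hx, hy, h⟩
    rw [qm_eq] at hx hy
    rw [← hx y, G.adj_comm, ← hy x', G.adj_comm]
    exact h

theorem tf (G : SimpleGraph V) (a b : Qt G) (h : ∀ c, EE G a c ↔ EE G b c) : a = b := by
  obtain ⟨x, rfl⟩ := qm_surj G a
  obtain ⟨y, rfl⟩ := qm_surj G b
  rw [qm_eq]
  intro z
  rw [adj_iff, adj_iff]
  exact h _

/-- the size of the class -/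
noncomputable def wt (G : SimpleGraph V) (a : Qt G) : ℕ := (univ.filter (fun x => qm G x = a)).card

theorem wt_qm (G : SimpleGraph V) (v : V) : wt G (qm G v) = (tw G v).card + 1 := by
  unfold wt
  have h1 : univ.filter (fun x => qm G x = qm G v) = insert v (tw G v) := by
    ext x
    rw [mem_filter, mem_insert, mem_tw, qm_eq]
    constructor
    · rintro ⟨_, h⟩
      by_cases hx : x = v
      · left; exact hx
      · right; exact ⟨hx, h⟩
    · rintro (rfl | h)
      · exact ⟨mem_univ _, fun _ => Iff.rfl⟩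
      · exact ⟨mem_univ _, h.2⟩
  rw [h1, card_insert_of_notMem]
  rw [mem_tw]
  exact fun h => h.1 rfl

section perm

variable {Q : Type} [Fintype Q]

theorem card_perm (E : Q → Q → Prop) (htf : ∀ a b, (∀ c, E a c ↔ E b c) → a = b)
    {G H : SimpleGraph V} {π : V → Equiv.Perm V} (hH : Hypo G H π) (v : V) (q q' : V → Q)
    (h1 : ∀ x y, G.Adj x y ↔ E (q x) (q y)) (h2 : ∀ x y, H.Adj x y ↔ E (q' x) (q' y))
    (hs : ∀ a, ∃ x, x ≠ v ∧ q x = a) (hs' : ∀ a, ∃ x, x ≠ v ∧ q' x = a) :
    ∃ α : Equiv.Perm Q, (∀ a b, E (α a) (α b) ↔ E a b) ∧ ∀ x, x ≠ v → q' (π v x) = α (q x) := by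
  have hne : ∀ x, π v x ≠ v ↔ x ≠ v := by
    intro x
    rw [not_iff_not]
    constructor
    · intro h
      apply (π v).injective
      rw [h, hH.fix]
    · intro h
      rw [h, hH.fix]
  have key : ∀ x y, x ≠ v → y ≠ v → (q' (π v x) = q' (π v y) ↔ q x = q y) := by
    intro x y hx hy
    constructor
    · intro h
      apply htf
      intro c
      obtain ⟨z, hz, rfl⟩ := hs c
      rw [← h1, ← h1, ← hH.adj v x z hx hz, ← hH.adj v y z hy hz, h2, h2, h]
    · intro h
      apply htf
      intro c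
      obtain ⟨z', hz', rfl⟩ := hs' c
      obtain ⟨z, rfl⟩ := (π v).surjective z'
      have hz := (hne z).mp hz'
      rw [← h2, ← h2, hH.adj v x z hx hz, hH.adj v y z hy hz, h1, h1, h]
  choose r hr1 hr2 using hs
  have hinj : Function.Injective (fun a => q' (π v (r a))) := by
    intro a b hab
    have := (key (r a) (r b) (hr1 a) (hr1 b)).mp hab
    rw [hr2, hr2] at this
    exact this
  refine ⟨Equiv.ofBijective _ (Finite.injective_iff_bijective.mp hinj), ?_, ?_⟩
  · intro a b
    rw [Equiv.ofBijective_apply, Equiv.ofBijective_apply]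
    rw [← h2, hH.adj v _ _ (hr1 a) (hr1 b), h1, hr2, hr2]
  · intro x hx
    rw [Equiv.ofBijective_apply]
    exact (key x (r (q x)) hx (hr1 _)).mpr (hr2 _).symm

theorem dl_card (q : V → Q) (w : Q → ℕ) (hw : ∀ a, w a = (univ.filter (fun x => q x = a)).card)
    (v : V) (a : Q) : dl w (q v) a = (univ.filter (fun x => x ≠ v ∧ q x = a)).card := by
  have h1 : univ.filter (fun x => x ≠ v ∧ q x = a) = (univ.filter (fun x => q x = a)).erase v := by
    ext x
    rw [mem_erase, mem_filter, mem_filter]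
    tauto
  unfold dl
  rw [h1, hw a]
  by_cases h : a = q v
  · rw [if_pos h, card_erase_of_mem]
    rw [mem_filter]
    exact ⟨mem_univ _, h.symm⟩
  · rw [if_neg h, erase_eq_of_notMem]
    intro h2
    exact h (mem_filter.mp h2).2.symm

theorem dl_perm {G H : SimpleGraph V} {π : V → Equiv.Perm V} (hH : Hypo G H π) (v : V)
    (q q' : V → Q) (w w' : Q → ℕ) (hw : ∀ a, w a = (univ.filter (fun x => q x = a)).card)
    (hw' : ∀ a, w' a = (univ.filter (fun x => q' x = a)).card) (α : Equiv.Perm Q)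
    (hα : ∀ x, x ≠ v → q' (π v x) = α (q x)) (a : Q) :
    dl w' (q' v) (α a) = dl w (q v) a := by
  have hne : ∀ x, π v x ≠ v ↔ x ≠ v := by
    intro x
    rw [not_iff_not]
    constructor
    · intro h
      apply (π v).injective
      rw [h, hH.fix]
    · intro h
      rw [h, hH.fix]
  rw [dl_card q' w' hw', dl_card q w hw]
  symm
  apply card_bij (fun x _ => π v x)
  · intro x hx
    rw [mem_filter] at hx ⊢
    exact ⟨mem_univ _, (hne x).mpr hx.2.1, by rw [hα x hx.2.1, hx.2.2]⟩
  · intro x _ y _ h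
    exact (π v).injective h
  · intro y hy
    obtain ⟨x, rfl⟩ := (π v).surjective y
    rw [mem_filter] at hy
    have h1 := (hne x).mp hy.2.1
    refine ⟨x, ?_, rfl⟩
    rw [mem_filter]
    refine ⟨mem_univ _, h1, ?_⟩
    have h2 := hy.2.2
    rw [hα x h1] at h2
    exact α.injective h2

theorem iso_of_perm (E : Q → Q → Prop) {G H : SimpleGraph V} (q q' : V → Q)
    (h1 : ∀ x y, G.Adj x y ↔ E (q x) (q y)) (h2 : ∀ x y, H.Adj x y ↔ E (q' x) (q' y))
    (w w' : Q → ℕ) (hw : ∀ a, w a = (univ.filter (fun x => q x = a)).card)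
    (hw' : ∀ a, w' a = (univ.filter (fun x => q' x = a)).card) (α : Equiv.Perm Q)
    (hα : ∀ a b, E (α a) (α b) ↔ E a b) (hww : ∀ a, w' (α a) = w a) :
    ∃ σ : Equiv.Perm V, ∀ x y, H.Adj (σ x) (σ y) ↔ G.Adj x y := by
  have hfib : ∀ c : Q, Nonempty ({x : V // α (q x) = c} ≃ {y : V // q' y = c}) := by
    intro c
    obtain ⟨a, rfl⟩ := α.surjective c
    refine ⟨Fintype.equivOfCardEq ?_⟩
    rw [Fintype.card_subtype, Fintype.card_subtype]
    have h3 : (univ.filter (fun x => α (q x) = α a)) = univ.filter (fun x => q x = a) := by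
      ext x
      simp
    rw [h3, ← hw, ← hw', hww]
  let f : V → Q := fun x => α (q x)
  let σ : V ≃ V := Equiv.ofFiberEquiv (f := f) (g := q') (fun c => (hfib c).some)
  have hσ : ∀ x, q' (σ x) = α (q x) := fun x => Equiv.ofFiberEquiv_map (f := f) (g := q') _ x
  refine ⟨σ, fun x y => ?_⟩
  rw [h2, hσ, hσ, hα, h1]

end perm

/-- the group of the permutations of the classes which preserve the adjacency, the set `P` and the
weights outside `P` -/
def AG (G : SimpleGraph V) (P : Finset (Qt G)) : Subgroup (Equiv.Perm (Qt G)) where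
  carrier := {γ | (∀ a b, EE G (γ a) (γ b) ↔ EE G a b) ∧ (∀ a, γ a ∈ P ↔ a ∈ P) ∧
    ∀ a, a ∉ P → wt G (γ a) = wt G a}
  mul_mem' := by
    rintro γ β ⟨h1, h2, h3⟩ ⟨k1, k2, k3⟩
    refine ⟨fun a b => ?_, fun a => ?_, fun a ha => ?_⟩
    · rw [Equiv.Perm.mul_apply, Equiv.Perm.mul_apply, h1, k1]
    · rw [Equiv.Perm.mul_apply, h2, k2]
    · rw [Equiv.Perm.mul_apply, h3 _ (fun h => ha ((k2 a).mp h)), k3 a ha]
  one_mem' := ⟨fun _ _ => Iff.rfl, fun _ => Iff.rfl, fun _ _ => rfl⟩
  inv_mem' := by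
    rintro γ ⟨h1, h2, h3⟩
    have e : ∀ a, γ (γ⁻¹ a) = a := fun a => by simp
    refine ⟨fun a b => ?_, fun a => ?_, fun a ha => ?_⟩
    · rw [← h1 (γ⁻¹ a) (γ⁻¹ b), e, e]
    · rw [← h2 (γ⁻¹ a), e]
    · have h4 : γ⁻¹ a ∉ P := fun h => ha (by rw [← e a]; exact (h2 _).mpr h)
      rw [← h3 _ h4, e]

theorem mem_AG (G : SimpleGraph V) (P : Finset (Qt G)) (γ : Equiv.Perm (Qt G)) :
    γ ∈ AG G P ↔ (∀ a b, EE G (γ a) (γ b) ↔ EE G a b) ∧ (∀ a, γ a ∈ P ↔ a ∈ P) ∧
    ∀ a, a ∉ P → wt G (γ a) = wt G a := Iff.rfl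

/-- the classes with sizes from `p` to `p + k - 1` -/
noncomputable def PP (G : SimpleGraph V) (p k : ℕ) : Finset (Qt G) :=
  univ.filter (fun a => p ≤ wt G a ∧ wt G a < p + k)

theorem mem_PP (G : SimpleGraph V) (p k : ℕ) (a : Qt G) :
    a ∈ PP G p k ↔ p ≤ wt G a ∧ wt G a < p + k := by
  unfold PP
  rw [mem_filter]
  exact ⟨fun h => h.2, fun h => ⟨mem_univ _, h⟩⟩

theorem exists_dk {G H : SimpleGraph V} {π : V → Equiv.Perm V} (hH : Hypo G H π)
    (hN : NonIso G H) (h8 : 8 ≤ Fintype.card V) (p k : ℕ) (hp : 1 ≤ p) (v0 : V)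
    (hv0 : p < (tw G v0).card + 1) (hv0' : (tw G v0).card + 1 < p + k) :
    ∃ (w' : Qt G → ℕ) (q' : V → Qt G) (T : Finset V),
      Dk (AG G (PP G p k)) (PP G p k) p (wt G) w' (qm G) q' T ∧
      (¬ ∃ γ : AG G (PP G p k), ∀ a, w' ((γ : Equiv.Perm (Qt G)) a) = wt G a) ∧
      ∀ a ∈ PP G p k, w' a < p + k := by
  have htw := tw_eq hH h8
  have h0 : 0 < (tw H v0).card := by rw [← htw]; omega
  obtain ⟨u, hu⟩ := card_pos.mp h0
  rw [mem_tw] at hu
  set z := (π v0).symm u with hz
  have hzu : π v0 z = u := by rw [hz, Equiv.apply_symm_apply]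
  have hzv : z ≠ v0 := by
    intro h
    rw [h, hH.fix] at hzu
    exact hu.1 hzu.symm
  set q' : V → Qt G := fun x => if x = v0 then qm G z else qm G ((π v0).symm x) with hq'
  have hqv : q' v0 = qm G z := by simp [hq']
  have hqx : ∀ x, x ≠ v0 → q' x = qm G ((π v0).symm x) := fun x hx => by simp [hq', hx]
  have hqπ : ∀ x, x ≠ v0 → q' (π v0 x) = qm G x := by
    intro x hx
    rw [hqx, Equiv.symm_apply_apply]
    intro h
    apply hx
    apply (π v0).injective
    rw [h, hH.fix]
  have hsne : ∀ x, x ≠ v0 → (π v0).symm x ≠ v0 := by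
    intro x hx h
    apply hx
    have := congrArg (π v0) h
    rwa [Equiv.apply_symm_apply, hH.fix] at this
  -- the adjacency of `H`
  have hadj1 : ∀ x y, x ≠ v0 → y ≠ v0 → (H.Adj x y ↔ EE G (q' x) (q' y)) := by
    intro x y hx hy
    have h1 := hH.adj v0 _ _ (hsne x hx) (hsne y hy)
    rw [Equiv.apply_symm_apply, Equiv.apply_symm_apply] at h1
    rw [h1, hqx x hx, hqx y hy, adj_iff]
  have hqu : q' u = q' v0 := by rw [hqx u hu.1, hqv]
  have hadj : ∀ x y, H.Adj x y ↔ EE G (q' x) (q' y) := by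
    intro x y
    by_cases hx : x = v0
    · by_cases hy : y = v0
      · rw [hx, hy, ← hqu, ← hadj1 u u hu.1 hu.1]
        exact ⟨fun h => absurd h H.irrefl, fun h => absurd h H.irrefl⟩
      · rw [hx, ← hu.2 y, ← hqu]
        exact hadj1 u y hu.1 hy
    · by_cases hy : y = v0
      · rw [hy, H.adj_comm, ← hu.2 x, H.adj_comm, ← hqu]
        exact hadj1 x u hx hu.1
      · exact hadj1 x y hx hy
  set w' : Qt G → ℕ := fun a => (univ.filter (fun x => q' x = a)).card with hw'
  have hww' : ∀ a, w' a = (univ.filter (fun x => q' x = a)).card := fun a => rfl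
  have hww : ∀ a, wt G a = (univ.filter (fun x => qm G x = a)).card := fun a => rfl
  -- sizes of the classes of `H`
  have hdl0 : ∀ a, dl w' (q' v0) a = dl (wt G) (qm G v0) a := by
    intro a
    exact dl_perm hH v0 (qm G) q' (wt G) w' hww hww' (Equiv.refl _) (fun x hx => hqπ x hx) a
  have hwqH : ∀ v, w' (q' v) = (tw H v).card + 1 := by
    intro v
    rw [hww']
    have h1 : univ.filter (fun x => q' x = q' v) = insert v (tw H v) := by
      ext x
      rw [mem_filter, mem_insert, mem_tw]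
      have h2 : q' x = q' v ↔ ∀ y, H.Adj x y ↔ H.Adj v y := by
        constructor
        · intro h y
          rw [hadj, hadj, h]
        · intro h
          apply tf
          intro c
          obtain ⟨y, rfl⟩ := qm_surj G c
          by_cases hy : y = v0
          · -- the class of `v0` in `G` has another member
            have h3 : 0 < (tw G v0).card := by omega
            obtain ⟨y', hy'⟩ := card_pos.mp h3
            rw [mem_tw] at hy'
            have h4 : qm G y = qm G y' := by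
              rw [hy, qm_eq]
              exact fun t => (hy'.2 t).symm
            rw [h4, ← hqπ y' hy'.1, ← hadj, ← hadj]
            exact h _
          · rw [← hqπ y hy, ← hadj, ← hadj]
            exact h _
      rw [h2]
      constructor
      · rintro ⟨_, h⟩
        by_cases hx : x = v
        · left; exact hx
        · right; exact ⟨hx, h⟩
      · rintro (rfl | h)
        · exact ⟨mem_univ _, fun _ => Iff.rfl⟩
        · exact ⟨mem_univ _, h.2⟩
    rw [h1, card_insert_of_notMem]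
    rw [mem_tw]
    exact fun h => h.1 rfl
  set c := qm G v0 with hc
  set c' := q' v0 with hc'
  have hwc : wt G c = (tw G v0).card + 1 := wt_qm G v0
  have hwc' : w' c' = (tw G v0).card + 1 := by rw [hwqH, ← htw]
  -- not isomorphic
  have hneq : ¬ ∃ γ : Equiv.Perm (Qt G), (∀ a b, EE G (γ a) (γ b) ↔ EE G a b) ∧
      ∀ a, w' (γ a) = wt G a := by
    rintro ⟨γ, h1, h2⟩
    exact hN (iso_of_perm (EE G) (qm G) q' (adj_iff G) hadj (wt G) w' hww hww' γ h1 h2)
  have hcc : c ≠ c' := by
    intro h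
    apply hneq
    refine ⟨1, fun _ _ => Iff.rfl, fun a => ?_⟩
    rw [Equiv.Perm.one_apply]
    have h1 := hdl0 a
    unfold dl at h1
    by_cases ha : a = c
    · rw [ha]
      conv_lhs => rw [h]
      rw [hwc', hwc]
    · rw [if_neg (fun h2 => ha (h2.trans h.symm)), if_neg ha] at h1
      exact h1
  -- comparison of the weights
  have hoff : ∀ a, a ≠ c → a ≠ c' → w' a = wt G a := by
    intro a ha ha'
    have h1 := hdl0 a
    unfold dl at h1
    rwa [if_neg ha', if_neg ha] at h1
  have hatc : w' c = wt G c - 1 := by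
    have h1 := hdl0 c
    unfold dl at h1
    rwa [if_neg hcc, if_pos rfl] at h1
  have hatc' : w' c' - 1 = wt G c' := by
    have h1 := hdl0 c'
    unfold dl at h1
    rwa [if_pos rfl, if_neg hcc.symm] at h1
  have hcP : c ∈ PP G p k := by rw [mem_PP, hwc]; omega
  have hcP' : c' ∈ PP G p k := by rw [mem_PP, ← hatc', hwc']; omega
  have hoffP : ∀ a, a ∉ PP G p k → w' a = wt G a := fun a ha =>
    hoff a (fun h => ha (h ▸ hcP)) (fun h => ha (h ▸ hcP'))
  have hrange : ∀ a ∈ PP G p k, p ≤ w' a ∧ w' a < p + k := by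
    intro a ha
    by_cases h1 : a = c
    · rw [h1, hatc, hwc]; omega
    · by_cases h2 : a = c'
      · rw [h2, hwc']; omega
      · rw [hoff a h1 h2]
        exact (mem_PP _ _ _ _).mp ha
  have hmemP' : ∀ a, a ∈ PP G p k ↔ p ≤ w' a ∧ w' a < p + k := by
    intro a
    constructor
    · exact hrange a
    · intro h
      by_contra hcon
      rw [hoffP a hcon] at h
      exact hcon ((mem_PP _ _ _ _).mpr h)
  set T : Finset V := univ.filter (fun v => p < (tw G v).card + 1 ∧ (tw G v).card + 1 < p + k)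
    with hT
  have hmT : ∀ v, v ∈ T ↔ p < (tw G v).card + 1 ∧ (tw G v).card + 1 < p + k := by
    intro v
    rw [hT, mem_filter]
    exact ⟨fun h => h.2, fun h => ⟨mem_univ _, h⟩⟩
  -- positivity
  have hwpos : ∀ a, 1 ≤ wt G a := by
    intro a
    obtain ⟨x, rfl⟩ := qm_surj G a
    rw [wt_qm]; omega
  have hwpos' : ∀ a, 1 ≤ w' a := by
    intro a
    by_cases h1 : a = c
    · rw [h1, hatc, hwc]; omega
    · by_cases h2 : a = c'
      · rw [h2, hwc']; omega
      · rw [hoff a h1 h2]
        exact hwpos a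
  have hsurj : ∀ (q : V → Qt G) (w : Qt G → ℕ) (v : V),
      (∀ a, w a = (univ.filter (fun x => q x = a)).card) → (∀ a, 1 ≤ w a) → 2 ≤ w (q v) →
      ∀ a, ∃ x, x ≠ v ∧ q x = a := by
    intro q w v hq h1 h2 a
    have h3 := dl_card q w hq v a
    have h4 : 0 < dl w (q v) a := by
      unfold dl
      split_ifs with h5
      · rw [h5]; omega
      · exact h1 a
    rw [h3] at h4
    obtain ⟨x, hx⟩ := card_pos.mp h4
    exact ⟨x, (mem_filter.mp hx).2⟩
  refine ⟨w', q', T, ⟨?_, ?_, hww, hww', hoffP, ?_, ?_, ?_, ?_, ?_, ?_⟩, ?_, ?_⟩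
  · intro γ hγ a
    exact ((mem_AG _ _ _).mp hγ).2.1 a
  · intro γ hγ a ha
    exact ((mem_AG _ _ _).mp hγ).2.2 a ha
  · intro a ha
    exact ((mem_PP _ _ _ _).mp ha).1
  · intro a ha
    exact (hrange a ha).1
  · intro v
    rw [hmT, mem_PP, wt_qm]
    omega
  · intro v
    rw [hmT, hmemP', hwqH, ← htw]
    omega
  · -- the totals
    have h1 : ∑ b, wt G b = Fintype.card V := by
      have h2 := card_eq_sum_card_fiberwise (f := qm G) (s := univ) (t := univ)
        (fun x _ => mem_univ _)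
      rw [card_univ] at h2
      rw [h2]
      rfl
    have h2 : ∑ b, w' b = Fintype.card V := by
      have h2 := card_eq_sum_card_fiberwise (f := q') (s := univ) (t := univ)
        (fun x _ => mem_univ _)
      rw [card_univ] at h2
      rw [h2]
    have h3 : ∑ b, wt G b = ∑ b ∈ PP G p k, wt G b + ∑ b ∈ (PP G p k)ᶜ, wt G b :=
      (sum_add_sum_compl _ _).symm
    have h4 : ∑ b, w' b = ∑ b ∈ PP G p k, w' b + ∑ b ∈ (PP G p k)ᶜ, w' b :=
      (sum_add_sum_compl _ _).symm
    have h5 : ∑ b ∈ (PP G p k)ᶜ, w' b = ∑ b ∈ (PP G p k)ᶜ, wt G b := by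
      apply sum_congr rfl
      intro b hb
      exact hoffP b (mem_compl.mp hb)
    omega
  · -- the deck
    intro v hv
    rw [hmT] at hv
    obtain ⟨α, hα1, hα2⟩ := card_perm (EE G) (tf G) hH v (qm G) q' (adj_iff G) hadj
      (hsurj (qm G) (wt G) v hww hwpos (by rw [wt_qm]; omega))
      (hsurj q' w' v hww' hwpos' (by rw [hwqH, ← htw]; omega))
    have hdl := dl_perm hH v (qm G) q' (wt G) w' hww hww' α hα2
    have e1 : wt G (qm G v) = (tw G v).card + 1 := wt_qm G v
    have e2 : w' (q' v) = (tw G v).card + 1 := by rw [hwqH, ← htw]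
    have hP1 : ∀ a, a ∈ PP G p k ↔ p ≤ dl (wt G) (qm G v) a ∧ dl (wt G) (qm G v) a < p + k := by
      intro a
      rw [mem_PP]
      unfold dl
      split_ifs with h
      · rw [h, e1]; omega
      · exact Iff.rfl
    have hP2 : ∀ a, a ∈ PP G p k ↔ p ≤ dl w' (q' v) a ∧ dl w' (q' v) a < p + k := by
      intro a
      rw [hmemP']
      unfold dl
      split_ifs with h
      · rw [h, e2]; omega
      · exact Iff.rfl
    have hαP : ∀ a, α a ∈ PP G p k ↔ a ∈ PP G p k := by
      intro a
      rw [hP2, hdl, ← hP1]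
    refine ⟨⟨α, (mem_AG _ _ _).mpr ⟨hα1, hαP, fun a ha => ?_⟩⟩, hdl⟩
    have h1 : α a ∉ PP G p k := fun h => ha ((hαP a).mp h)
    have h2 := hdl a
    unfold dl at h2
    have h3 : α a ≠ q' v := by
      intro h
      apply h1
      rw [h, hmemP', e2]
      omega
    have h4 : a ≠ qm G v := by
      intro h
      apply ha
      rw [h, mem_PP, e1]
      omega
    rw [if_neg h3, if_neg h4, hoffP _ h1] at h2
    exact h2
  · rintro ⟨γ, hγ⟩
    exact hneq ⟨γ, ((mem_AG _ _ _).mp γ.2).1, hγ⟩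
  · intro a ha
    exact (hrange a ha).2

end Pool.Agent.R586.TW
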